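import Pool.Agent.Q2E.Cert

/-!
# Certificates, and descriptions of computations by small programs
-/

set_option autoImplicit false

namespace Pool.Agent.Q2E

open Pool.Agent.H19 Pool.Agent.H19.T Pool.Agent.PO Pool.Agent.S2L Pool.Agent.RU

/-- A program of size at most `s` computes, each at cost at most `s`, from their numbers in binary,
the records of an accepting computation of `W`. -/
def DescribedBy (s : ℕ) (W : Code) : Prop :=
  ∃ (D : Code) (L : ℕ) (r : ℕ → Rec), D.enc.size ≤ s ∧ L.size ≤ s ∧ Accepting r L W ∧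
    ∀ i < L, ∃ t ≤ s, Eval D (bl i) (r i).enc t

/-! ### The parts of `v = cin φ s y z` -/

def wφ (v : T) : T := v.left
def wy (v : T) : T := v.right.left.left
def wz (v : T) : T := v.right.left.right
def ws (v : T) : ℕ := v.right.right.len

section
variable (V : T) (B : T → T)

/-- The record number `bn w.right` given by the program `(wy v).left`, for `w = node v (bl j)`. -/
def GP (w : T) : T := (simulF (T.node (wy w.left).left.left (T.node (bl (bn w.right))
  (T.unary (ws w.left))))).right

/-- The opponent wins against a program; `y = node (node D leaf) l`. -/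
def BadP (v : T) : Prop := ws v < 2 * (wy v).right.size ∨ bn (wy v).right = 0 ∨
  (bn (wz v) < bn (wy v).right ∧ ¬ (CheckT (fun k => GP (T.node v (bl k))) (bn (wz v)) ∧
    (bn (wz v) + 1 ≠ bn (wy v).right ∨
      FinalT (fun k => GP (T.node v (bl k))) (bn (wz v)) (WE V (wφ v)))))

/-- The opponent wins against a certificate; `y = node (node leaf (unary s)) y₁`. -/
def BadC (v : T) : Prop := (wy v).left.right.len < (wy v).right.size ∨
  ws v < (wy v).left.right.len ∨ ((wz v).size ≤ (wy v).left.right.len ∧
    B (cin (wφ v) (wy v).left.right.len (wy v).right (wz v)) = T.leaf)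

/-- The opponent wins. -/
def BadV (v : T) : Prop := ((wy v).left.left = T.leaf ∧ BadC B v) ∨
  ((wy v).left.left ≠ T.leaf ∧ BadP V v)

end

theorem GP_polyTime : PolyTime GP := by
  have i := PolyTime.id
  have hv : PolyTime (fun w : T => w.left) := i.left
  have hj : PolyN (fun w : T => bn w.right) := polyN_bn i.right
  have hs : PolyNat (fun w : T => ws w.left) := PolyNat.len hv.right.right
  exact (SIMF_thm.1.comp (hv.right.left.left.left.left.node (hj.node hs.unary))).right

theorem badV_polyDec (V : T) {B : T → T} (hB : PolyTime B) : PolyDec (BadV V B) := by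
  have i := PolyTime.id
  have hφ : PolyTime wφ := i.left
  have hy : PolyTime wy := i.right.left.left
  have hz : PolyTime wz := i.right.left.right
  have hs : PolyNat ws := PolyNat.len i.right.right
  have hL : PolyN (fun v => bn (wy v).right) := polyN_bn hy.right
  have hzN : PolyN (fun v => bn (wz v)) := polyN_bn hz
  have hs0 : PolyNat (fun v => (wy v).left.right.len) := PolyNat.len hy.left.right
  have h1 : PolyDec (BadC B) := by
    refine ((PolyDec.le (PolyNat.size hy.right) hs0).not.congr fun v => by rw [Nat.not_le]).or ?_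
    refine ((PolyDec.le hs0 hs).not.congr fun v => by rw [Nat.not_le]).or ?_
    exact (PolyDec.le (PolyNat.size hz) hs0).and
      (PolyDec.eq_leaf (hB.comp (hφ.node ((hy.right.node hz).node hs0.unary))))
  have h2 : PolyDec (BadP V) := by
    refine ((PolyDec.le ((PolyNat.const 2).mul (PolyNat.size hy.right)) hs).not.congr
      fun v => by rw [Nat.not_le]).or ?_
    refine (PolyDec.eqN hL (PolyNat.const 0).toN).or ?_
    refine (ltN hzN hL).and ?_
    exact ((CheckT_dec GP_polyTime hzN).and
      (((PolyDec.eqN (hzN.add (PolyNat.const 1).toN) hL).not).or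
        (FinalT_dec GP_polyTime hzN (WE_poly V hφ)))).not
  exact ((PolyDec.eq_leaf hy.left.left).and h1).or ((PolyDec.ne_leaf hy.left.left).and h2)

theorem arith3 (e : ℕ) : ∃ n₀ : ℕ, ∀ n ≥ n₀, ∀ s : ℕ, s ^ (2 * e) ≤ n → (10 * s + 10) ^ e ≤ n := by
  refine ⟨120 ^ e, fun n hn s hs => ?_⟩
  rcases Nat.lt_or_ge s 11 with h | h
  · exact (Nat.pow_le_pow_left (by omega) e).trans hn
  · refine (Nat.pow_le_pow_left (show 10 * s + 10 ≤ s ^ 2 by nlinarith) e).trans ?_
    rw [← pow_mul]
    exact hs

/-- No certificates and no descriptions. -/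
theorem certs (μ : Fm) (hμ : IsUniversal μ) (P : Code → ℕ → Fm) (hP : IsFormalisation μ P)
    (S T₀ : Set Fm) (hS : InClassT S) (hT₀ : InClassT T₀) (B : T → T) (hB : PolyTime B)
    (hsound : SoundCert S B) (V : Code) (hV : SoundChecker S V) :
    ∃ (c : Code) (κ : ℕ), HaltsWithin c κ ∧ SameModels (theory c κ) T₀ ∧
      ∃ e n₀ : ℕ, ∀ n ≥ n₀, ∀ s : ℕ, s ^ e ≤ n →
        (∀ y : T, y.size ≤ s → ∃ z : T, z.size ≤ s ∧
          B (cin (rfn (P c κ) μ n).enc s y z) = T.leaf) ∧
        ¬ DescribedBy s (check V (rfn (P c κ) μ n)) := by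
  classical
  obtain ⟨B', hB', hB1, hB2⟩ : ∃ B' : T → T, PolyTime B' ∧
      (∀ v, BadV V.enc B v → B' v = T.leaf) ∧ ∀ v, B' v = T.leaf → BadV V.enc B v := by
    refine ⟨_, PolyTime.ifP (badV_polyDec V.enc hB) (PolyTime.const T.leaf)
      (PolyTime.const (T.node T.leaf T.leaf)), fun v hv => if_pos hv, fun v hv => ?_⟩
    by_contra h
    beta_reduce at hv
    rw [if_neg h] at hv
    simp at hv
  have hsnd : SoundCert S B' := by
    intro φ s y hy hall
    have hnb : ∀ z : T, z.size ≤ s → ¬ BadV V.enc B (cin φ.enc s y z) :=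
      fun z hz h => hall z hz (hB1 _ h)
    have ey : ∀ z, wy (cin φ.enc s y z) = y := fun z => rfl
    have ez : ∀ z, wz (cin φ.enc s y z) = z := fun z => rfl
    have eφ : ∀ z, wφ (cin φ.enc s y z) = φ.enc := fun z => rfl
    have eS : ∀ z, ws (cin φ.enc s y z) = s := fun z => T.len_unary s
    have hs1 : (T.leaf).size ≤ s := by rw [T.size]; have := T.size_pos y; omega
    by_cases htag : y.left.left = T.leaf
    · have hnc : ∀ z : T, z.size ≤ s → ¬ BadC B (cin φ.enc s y z) :=
        fun z hz h => hnb z hz (Or.inl ⟨by rw [ey]; exact htag, h⟩)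
      have h1 : y.right.size ≤ y.left.right.len := by
        by_contra hcon
        refine hnc T.leaf hs1 (Or.inl ?_)
        rw [ey]
        omega
      have h2 : y.left.right.len ≤ s := by
        by_contra hcon
        refine hnc T.leaf hs1 (Or.inr (Or.inl ?_))
        rw [ey, eS]
        omega
      refine hsound φ y.left.right.len y.right h1 fun z hz hBz => ?_
      refine hnc z (hz.trans h2) (Or.inr (Or.inr ⟨?_, ?_⟩))
      · rw [ez, ey]
        exact hz
      · rw [ez, ey, eφ]
        exact hBz
    · have hnp : ∀ z : T, z.size ≤ s → ¬ BadP V.enc (cin φ.enc s y z) :=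
        fun z hz h => hnb z hz (Or.inr ⟨by rw [ey]; exact htag, h⟩)
      have h1 : 2 * y.right.size ≤ s := by
        by_contra hcon
        refine hnp T.leaf hs1 (Or.inl ?_)
        rw [ey, eS]
        omega
      have h2 : bn y.right ≠ 0 := by
        intro hcon
        refine hnp T.leaf hs1 (Or.inr (Or.inl ?_))
        rw [ey]
        exact hcon
      have eG : ∀ z k, GP (T.node (cin φ.enc s y z) (bl k)) =
          GP (T.node (cin φ.enc s y T.leaf) (bl k)) := fun z k => rfl
      obtain ⟨v, y', t, h3, h4⟩ := acc_sound (W := check V φ) h2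
        (R := fun k => GP (T.node (cin φ.enc s y T.leaf) (bl k))) fun i hi => by
          have h3 := bl_bn_size y.right i hi.le
          have h4 := hnp (bl i) (by omega)
          by_contra hcon
          refine h4 (Or.inr (Or.inr ⟨?_, fun h5 => hcon ?_⟩))
          · rw [ez, ey, bn_bl]
            exact hi
          · rw [ez, ey, bn_bl, eφ, WE_eq] at h5
            simp only [eG] at h5
            exact h5
      obtain ⟨t', h5⟩ := check_inv h3
      exact hV _ _ _ _ h5 h4
  obtain ⟨c, κ, hh, hm, e₁, n₁, hno⟩ := no_cert μ hμ P hP S T₀ hS hT₀ B' hB' hsnd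
  obtain ⟨n₂, hn₂⟩ := arith3 e₁
  refine ⟨c, κ, hh, hm, 2 * e₁, max n₁ n₂, fun n hn s hs => ?_⟩
  have hn1 : n₁ ≤ n := (le_max_left _ _).trans hn
  have hs' := hn₂ n ((le_max_right _ _).trans hn) s hs
  constructor
  · intro y hy
    obtain ⟨z, hz1, hz2⟩ := hno n hn1 (10 * s + 10) (T.node (T.node T.leaf (T.unary s)) y) hs' (by
      simp only [T.size, T.size_unary]
      omega)
    rcases hB2 _ hz2 with ⟨_, h⟩ | ⟨h, _⟩
    · have e1 : (wy (cin (rfn (P c κ) μ n).enc (10 * s + 10)
        (T.node (T.node T.leaf (T.unary s)) y) z)).left.right.len = s := T.len_unary s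
      unfold BadC at h
      rw [e1] at h
      rcases h with h | h | ⟨h3, h4⟩
      · exact absurd h (by
          show ¬ (s < y.size)
          omega)
      · have e2 : ws (cin (rfn (P c κ) μ n).enc (10 * s + 10)
          (T.node (T.node T.leaf (T.unary s)) y) z) = 10 * s + 10 := T.len_unary _
        rw [e2] at h
        omega
      · exact ⟨z, h3, h4⟩
    · exact absurd rfl h
  · rintro ⟨D, L, r, hD, hLs, ⟨hL, hok, hfin⟩, hr⟩
    have hbl := bl_size L
    obtain ⟨z, hz1, hz2⟩ := hno n hn1 (10 * s + 10) (T.node (T.node D.enc T.leaf) (bl L)) hs' (by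
      simp only [T.size]
      omega)
    obtain ⟨v, hv⟩ : ∃ v, v = cin (rfn (P c κ) μ n).enc (10 * s + 10)
      (T.node (T.node D.enc T.leaf) (bl L)) z := ⟨_, rfl⟩
    rw [← hv] at hz2
    have ey : wy v = T.node (T.node D.enc T.leaf) (bl L) := by rw [hv]; rfl
    have eS : ws v = 10 * s + 10 := by rw [hv]; exact T.len_unary _
    have eφ : wφ v = (rfn (P c κ) μ n).enc := by rw [hv]; rfl
    have hR : ∀ j < L, GP (T.node v (bl j)) = (r j).enc := by
      intro j hj
      obtain ⟨t, ht, he⟩ := hr j hj
      rw [GP, T.left_node, T.right_node, ey, T.left_node, T.left_node, bn_bl, eS,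
        SIMF_thm.2.1 D _ _ t _ he (by omega), T.right_node]
    rcases hB2 _ hz2 with ⟨h, _⟩ | ⟨_, h⟩
    · rw [ey] at h
      cases D <;> simp [Code.enc] at h
    · unfold BadP at h
      rw [ey, T.right_node, eS, bn_bl, eφ, WE_eq] at h
      rcases h with h | h | ⟨h1, h2⟩
      · omega
      · omega
      · apply h2
        have hR' : ∀ j ≤ bn (wz v), (fun k => GP (T.node v (bl k))) j = (r j).enc :=
          fun j hj => hR j (by omega)
        refine ⟨check_complete hR' fun j hj => hok j (by omega), ?_⟩
        by_cases h6 : bn (wz v) + 1 = L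
        · right
          obtain ⟨x', y', s', t', a, b, h7, h8⟩ := hfin
          have h9 : L - 1 = bn (wz v) := by omega
          rw [h9] at h7
          exact final_complete hR' (hok _ h1) h7 h8
        · exact Or.inl h6

end Pool.Agent.Q2E
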