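import Pool.Agent.Q2E.Core

/-!
# Subexponential time with two alternating quantifiers
-/

set_option autoImplicit false

namespace Pool.Agent.Q2E

open Pool.Agent.H19 Pool.Agent.H19.T Pool.Agent.PO Pool.Agent.S2L Pool.Agent.RU

/-- The set `A` of numbers is in `Σ₂TIME(t)`: a number `x` of length `m` is in `A` if and only if
for some `y` of size at most `s = t m`, and all `z` of size at most `s`, a referee accepts who works
in time polynomial in `m` and `s`. -/
def InSigma2Time (t : ℕ → ℕ) (A : Set ℕ) : Prop :=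
  ∃ B : T → T, PolyTime B ∧ ∀ x s : ℕ, s = t x.size →
    (x ∈ A ↔ ∃ y : T, y.size ≤ s ∧ ∀ z : T, z.size ≤ s →
      B (T.node (bl x) (T.node (T.node y z) (T.unary s))) ≠ T.leaf)

theorem not_sigma2 {A : Set ℕ} (hA : NoShortProofs A) (t : ℕ → ℕ) (ht : SubexpBound t) :
    ¬ InSigma2Time t A := by
  rintro ⟨B, hB, hBA⟩
  obtain ⟨⟨f, hf, hft⟩, hsub⟩ := ht
  have i := PolyTime.id
  -- the referee who checks the bound
  have hB' : PolyTime (fun w : T => tif (f (T.node (T.unary w.left.len) (T.unary w.right.right.len)))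
      T.leaf (B w)) :=
    PolyTime.tif (hf.comp ((PolyNat.len i.left).unary.node (PolyNat.len i.right.right).unary))
      PolyTime.leaf hB
  have hval : ∀ (x s : ℕ) (y z : T), (fun w : T => tif (f (T.node (T.unary w.left.len)
      (T.unary w.right.right.len))) T.leaf (B w)) (vin x s y z) ≠ T.leaf ↔
      s = t x.size ∧ B (vin x s y z) ≠ T.leaf := by
    intro x s y z
    have h1 : (vin x s y z).left.len = x.size := bl_len x
    have h2 : (vin x s y z).right.right.len = s := T.len_unary s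
    beta_reduce
    rw [h1, h2, ← hft x.size s]
    by_cases h3 : f (T.node (T.unary x.size) (T.unary s)) = T.leaf
    · rw [h3, tif_leaf]
      simp
    · rw [tif, if_neg h3]
      simp [h3]
  obtain ⟨e, m₀, h⟩ := hA _ hB' (by
    intro x s y hy hall
    have hs1 : 1 ≤ s := (T.size_pos y).trans hy
    have h1 := (hval x s y T.leaf).1 (hall T.leaf hs1)
    exact (hBA x s h1.1).2 ⟨y, hy, fun z hz => ((hval x s y z).1 (hall z hz)).2⟩)
  obtain ⟨m₁, hm₁⟩ := hsub e
  obtain ⟨x, hxA, hxm, hx⟩ := h (max m₀ m₁) (le_max_left _ _)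
  obtain ⟨y, hy, hyz⟩ := (hBA x (t x.size) rfl).1 hxA
  obtain ⟨z, hz, hz0⟩ := hx (t x.size) y (by rw [hxm]; exact hm₁ _ (le_max_right _ _)) hy
  exact (hval x _ y z).2 ⟨rfl, hyz z hz⟩ hz0

end Pool.Agent.Q2E
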