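import Pool.Agent.Q2E.Hard
import Pool.Agent.S2L.Th
import Pool.Agent.PO.SimF

/-!
# Certificates of provability that are checkable in coNP

For every theory `S` of the class and every sound notion `B` of coNP-checkable certificates of
`S`-provability there is a theory in the class whose reflection sentences for `n` have no
certificates of size `n ^ δ`.
-/

set_option autoImplicit false

namespace Pool.Agent.Q2E

open Pool.Agent.H19 Pool.Agent.H19.T Pool.Agent.PO Pool.Agent.S2L Pool.Agent.RU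

/-- The input of the check: the formula, the certificate `y`, the message `z` of the opponent and
the bound `s` on the sizes of `y` and `z`. -/
def cin (φ : T) (s : ℕ) (y z : T) : T := T.node φ (T.node (T.node y z) (T.unary s))

/-- `B` is a sound notion of coNP-checkable certificates of `S`-provability: if a certificate `y`
of size at most `s` for `φ` is refuted by no message `z` of size at most `s`, then `S` proves
`φ`. -/
def SoundCert (S : Set Fm) (B : T → T) : Prop :=
  ∀ (φ : Fm) (s : ℕ) (y : T), y.size ≤ s →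
    (∀ z : T, z.size ≤ s → B (cin φ.enc s y z) ≠ T.leaf) → Provable S φ

/-! ### Arithmetic -/

theorem arith2 (c K : ℕ) : ∃ n₀ : ℕ, ∀ n ≥ n₀, ∀ s : ℕ, s ^ (2 * (c + 1)) ≤ n →
    c * (3 * s + 4 * n.size + K).size < n.size := by
  obtain ⟨q₀, hq₀⟩ := exists_large (4 * (c + 1) + K)
  refine ⟨2 ^ ((c + 1) * (q₀ + 8)), fun n hn s hs => ?_⟩
  obtain ⟨a, ha⟩ : ∃ a, a = n.size - 1 := ⟨_, rfl⟩
  have h1 : (c + 1) * (q₀ + 8) < n.size := Nat.lt_size.2 hn
  have hc0 : 0 < c + 1 := by omega
  obtain ⟨q, hq⟩ : ∃ q, q = a / (c + 1) := ⟨_, rfl⟩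
  have h3 : q₀ + 8 ≤ q := by
    rw [hq, Nat.le_div_iff_mul_le hc0, mul_comm]
    omega
  have h4 : a < (c + 1) * (q + 1) := by
    rw [hq]
    exact Nat.lt_mul_div_succ a hc0
  have h5 : (c + 1) * q ≤ a := by
    rw [hq]
    exact Nat.mul_div_le a (c + 1)
  obtain ⟨p, hp⟩ : ∃ p, q = p + 3 := ⟨q - 3, by omega⟩
  have hs2 : s < 2 ^ p := by
    by_contra hcon
    push Not at hcon
    have h7 : 2 ^ n.size ≤ s ^ (2 * (c + 1)) := by
      calc 2 ^ n.size ≤ 2 ^ ((c + 1) * (q + 1)) := Nat.pow_le_pow_right (by norm_num) (by omega)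
        _ ≤ 2 ^ (p * (2 * (c + 1))) := by
          refine Nat.pow_le_pow_right (by norm_num) ?_
          calc (c + 1) * (q + 1) ≤ (c + 1) * (2 * p) := Nat.mul_le_mul_left _ (by omega)
            _ = p * (2 * (c + 1)) := by ring
        _ = (2 ^ p) ^ (2 * (c + 1)) := by rw [pow_mul]
        _ ≤ s ^ (2 * (c + 1)) := Nat.pow_le_pow_left hcon _
    have h8 := Nat.lt_size_self n
    omega
  have hlarge := hq₀ (p + 2) (by omega)
  have h8 : (2 : ℕ) ^ q = 8 * 2 ^ p := by rw [hp, pow_add]; ring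
  have h9 : (2 : ℕ) ^ (p + 2) = 4 * 2 ^ p := by rw [pow_add]; ring
  have h10 : 4 * n.size + K < 2 ^ (p + 2) := by
    have h11 : 3 * (4 * (c + 1) + K) * (p + 2 + 3) =
      12 * ((c + 1) * (q + 1)) + 3 * K * q + 12 * (c + 1) + 6 * K := by
      rw [hp]; ring
    have h12 : 0 ≤ 3 * K * q := Nat.zero_le _
    omega
  have h13 : (3 * s + 4 * n.size + K).size ≤ q := by
    rw [Nat.size_le]
    omega
  calc c * (3 * s + 4 * n.size + K).size ≤ c * q := Nat.mul_le_mul_left _ h13
    _ ≤ (c + 1) * q := Nat.mul_le_mul_right _ (by omega)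
    _ < n.size := by omega

theorem pow_le_of_size {c x m : ℕ} (h : c * x.size < m.size) : x ^ c ≤ m := by
  have h1 : 2 ^ (c * x.size) ≤ m := Nat.lt_size.1 h
  calc x ^ c ≤ (2 ^ x.size) ^ c := Nat.pow_le_pow_left (Nat.lt_size_self x).le _
    _ = 2 ^ (c * x.size) := by rw [← pow_mul, mul_comm]
    _ ≤ m := h1

/-! ### The axioms -/

def zm (Z : T) : ℕ := bn Z.left.left
def zb (Z : T) : T := Z.left.right
def zy (Z : T) : T := Z.right.left
def zs (Z : T) : ℕ := Z.right.right.len

/-- The presentation, with a halting flag. -/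
def qD (D Z : T) : T := simulF (T.node D.left.left (T.node D (zb Z)))

/-- The condition on the axioms. -/
def CC (D Z : T) : Prop := (zy Z).size ≤ zs Z ∧ qD D Z ≠ T.leaf ∧
  D.right.len * (D.size + Z.size + 2).size < (zm Z).size

section
variable (μ : Fm) (fP B : T → T)

/-- The reflection sentence. -/
def phi (D Z : T) : T := (rfn (decFm (fP (qD D Z).right)) μ (zm Z)).enc

/-- The message `y` refutes the certificate in `Z`. -/
def FF1 (X y : T) : Prop := y.size ≤ zs X.right ∧
  B (cin (phi μ fP X.left X.right) (zs X.right) (zy X.right) y) = T.leaf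

end

theorem qD_polyTime {D Z : T → T} (hD : PolyTime D) (hZ : PolyTime Z) :
    PolyTime (fun x => qD (D x) (Z x)) :=
  SIMF_thm.1.comp (hD.left.left.node (hD.node hZ.left.right))

theorem CC_polyDec : PolyDec (fun z => CC z.left z.right) := by
  have i := PolyTime.id
  have hD : PolyTime (fun z : T => z.left) := i.left
  have hZ : PolyTime (fun z : T => z.right) := i.right
  have hm : PolyN (fun z : T => zm z.right) := polyN_bn hZ.left.left
  have h1 : PolyNat (fun z : T => z.left.size + z.right.size + 2) :=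
    ((PolyNat.size hD).add (PolyNat.size hZ)).add (PolyNat.const 2)
  refine (PolyDec.le (PolyNat.size hZ.right.left) (PolyNat.len hZ.right.right)).and
    ((PolyDec.ne_leaf (qD_polyTime hD hZ)).and ?_)
  exact PolyDec.le (((PolyNat.len hD.right).mul h1.toN.size).add (PolyNat.const 1)) hm.size

theorem FF1_polyDec (μ : Fm) {fP B : T → T} (hfP : PolyTime fP) (hB : PolyTime B) :
    PolyDec (fun z => FF1 μ fP B z.left z.right) := by
  have i := PolyTime.id
  have hD : PolyTime (fun z : T => z.left.left) := i.left.left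
  have hZ : PolyTime (fun z : T => z.left.right) := i.left.right
  have hm : PolyN (fun z : T => zm z.left.right) := polyN_bn hZ.left.left
  have hs : PolyNat (fun z : T => zs z.left.right) := PolyNat.len hZ.right.right
  have hφ : PolyTime (fun z : T => phi μ fP z.left.left z.left.right) :=
    rfn_polyTimeN μ (hfP.comp (qD_polyTime hD hZ).right) hm
  exact (PolyDec.le (PolyNat.size i.right) hs).and
    (PolyDec.eq_leaf (hB.comp (hφ.node ((hZ.right.left.node i.right).node hs.unary))))

/-- For every sound notion of coNP-checkable certificates of `S`-provability there is a theory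
whose reflection sentences have no short certificates. -/
theorem no_cert (μ : Fm) (hμ : IsUniversal μ) (P : Code → ℕ → Fm) (hP : IsFormalisation μ P)
    (S T₀ : Set Fm) (hS : InClassT S) (hT₀ : InClassT T₀) (B : T → T) (hB : PolyTime B)
    (hsound : SoundCert S B) :
    ∃ (c : Code) (κ : ℕ), HaltsWithin c κ ∧ SameModels (theory c κ) T₀ ∧
      ∃ e n₀ : ℕ, ∀ n ≥ n₀, ∀ (s : ℕ) (y : T), s ^ e ≤ n → y.size ≤ s →
        ∃ z : T, z.size ≤ s ∧ B (cin (rfn (P c κ) μ n).enc s y z) = T.leaf := by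
  obtain ⟨fP, hfP, hfPc⟩ := hP.poly
  obtain ⟨pc, pk, c, hg, hhalt, hmod, hkey⟩ := TH_thm μ hμ P hP S T₀ hS hT₀ (FF1 μ fP B) CC
    (FF1_polyDec μ hfP hB) (fun X y h => h.1.trans (by
      have h1 := T.len_lt_size X.right.right.right
      have h2 := T.size_right_le X.right.right
      have h3 := T.size_right_le X.right
      have h4 := T.size_right_le X
      unfold zs
      omega)) CC_polyDec
  obtain ⟨cg, kg, hcg⟩ := hg
  obtain ⟨D, hD⟩ : ∃ D, D = T.node (T.node cg.enc T.leaf) (T.unary c) := ⟨_, rfl⟩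
  have hDl : D.left.left = cg.enc := by rw [hD]; rfl
  have hDr : D.right.len = c := by rw [hD]; exact T.len_unary c
  obtain ⟨tg, htg, htgb⟩ := hcg D
  have hq : ∀ Z, qD D Z ≠ T.leaf → qD D Z = T.node T.leaf
      (T.node (pc D).enc (T.unary (pk D))) := by
    intro Z hZ
    rw [qD, hDl] at hZ ⊢
    exact (SIMF_thm.2.2 cg D _ (zb Z) tg htg).resolve_left hZ
  have hphi : ∀ Z, qD D Z ≠ T.leaf → phi μ fP D Z = (rfn (P (pc D) (pk D)) μ (zm Z)).enc := by
    intro Z hZ
    rw [phi, hq Z hZ, T.right_node, hfPc, decFm_enc]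
  have htot : ∀ Z, CC D Z → ∃ y, FF1 μ fP B (T.node D Z) y := by
    intro Z hZ
    by_contra hno
    push Not at hno
    obtain ⟨h1, h2, h3⟩ := hZ
    have h4 : Provable S (rfn (P (pc D) (pk D)) μ (zm Z)) := by
      refine hsound _ (zs Z) (zy Z) h1 fun z hz hBz => hno z ⟨hz, ?_⟩
      rw [T.left_node, T.right_node, hphi Z h2]
      exact hBz
    rw [hDr] at h3
    obtain ⟨y, hy⟩ := hkey D Z (zm Z) ⟨h1, h2, by rw [hDr]; exact h3⟩ (pow_le_of_size h3) h4
    exact hno y hy
  obtain ⟨n₀, hn₀⟩ := arith2 c (D.size + 2 * (D.size + 2) ^ kg + 20)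
  refine ⟨pc D, pk D, hhalt D, hmod D htot, 2 * (c + 1), n₀, fun n hn s y hs hy => ?_⟩
  obtain ⟨Z, hZ⟩ : ∃ Z, Z = T.node (T.node (bl n) (T.unary ((D.size + 2) ^ kg)))
    (T.node y (T.unary s)) := ⟨_, rfl⟩
  have e1 : zm Z = n := by rw [hZ]; exact bn_bl n
  have e2 : zy Z = y := by rw [hZ]; rfl
  have e3 : zs Z = s := by rw [hZ]; exact T.len_unary s
  have e4 : qD D Z ≠ T.leaf := by
    rw [qD, hDl, hZ]
    show simulF (T.node cg.enc (T.node D (T.unary ((D.size + 2) ^ kg)))) ≠ _
    rw [SIMF_thm.2.1 cg D _ tg _ htg htgb]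
    simp
  have e5 : D.size + Z.size + 2 ≤ 3 * s + 4 * n.size + (D.size + 2 * (D.size + 2) ^ kg + 20) := by
    have := bl_size n
    rw [hZ]
    simp only [T.size, T.size_unary]
    omega
  have hCC : CC D Z := by
    refine ⟨by rw [e2, e3]; exact hy, e4, ?_⟩
    rw [hDr, e1]
    exact (Nat.mul_le_mul_left _ (Nat.size_le_size e5)).trans_lt (hn₀ n hn s hs)
  obtain ⟨z, hz1, hz2⟩ := htot Z hCC
  rw [T.right_node, e3] at hz1
  rw [T.left_node, T.right_node, hphi Z e4, e1, e2, e3] at hz2
  exact ⟨z, hz1, hz2⟩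

end Pool.Agent.Q2E
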