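import Pool.Agent.Q2E.Hard

/-!
# Boolean circuits
-/

set_option autoImplicit false

namespace Pool.Agent.Q2E

open Pool.Agent.H19 Pool.Agent.H19.T Pool.Agent.PO Pool.Agent.S2L Pool.Agent.RU

/-! A circuit is a list of gates; a gate `(a, b)` computes the negation of the conjunction of the
values of the wires number `a` and `b`. The inputs are the first wires, and every gate adds a wire.
The output is the value of the last wire. -/

/-- The values of all the wires; `w` is the list of the inputs. -/
def wires (C : List (ℕ × ℕ)) (w : List Bool) : List Bool :=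
  C.foldl (fun w g => w ++ [!(w.getD g.1 false && w.getD g.2 false)]) w

/-- The binary digits of a number. -/
def digits (x : ℕ) : List Bool := (List.range x.size).map fun i => x.testBit i

/-- The circuit accepts the number `x`. -/
def AcceptsC (C : List (ℕ × ℕ)) (x : ℕ) : Prop := (wires C (digits x)).getLast? = some true

/-- A circuit on `m` inputs: gates refer to earlier wires. -/
def IsCircuit (m : ℕ) (C : List (ℕ × ℕ)) : Prop :=
  ∀ k (h : k < C.length), (C[k]).1 < m + k ∧ (C[k]).2 < m + k

/-- No circuits of size `2 ^ (m / e)` decide the numbers of length `m`, for any large `m`. -/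
def HardForCircuits (A : Set ℕ) : Prop :=
  ∃ e m₀ : ℕ, ∀ m ≥ m₀, ∀ C : List (ℕ × ℕ), IsCircuit m C → C.length ^ e ≤ 2 ^ m →
    ∃ x : ℕ, x.size = m ∧ ¬ (x ∈ A ↔ AcceptsC C x)

/-! ### Evaluation in polynomial time -/

/-- The list of digits as a tree. -/
def encW (w : List Bool) : T := encL (w.map Dec.lt)

def encC (C : List (ℕ × ℕ)) : T := encL (C.map fun g => T.node (T.unary g.1) (T.unary g.2))

def cStep (h a : T) : T := app a (T.node (tif (nthT a h.left.len) (T.node T.leaf T.leaf)
  (tif (nthT a h.right.len) (T.node T.leaf T.leaf) T.leaf)) T.leaf)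

theorem nthT_encW (w : List Bool) (k : ℕ) : nthT (encW w) k = Dec.lt (w.getD k false) := by
  rw [Dec.nthT_eq, encW, toL_encL]
  have h1 : (T.leaf : T) = Dec.lt false := rfl
  rw [h1, List.getD_map]

theorem tif_lt (b : Bool) (x y : T) : tif (Dec.lt b) x y = if b then y else x := by
  cases b <;> simp [Dec.lt, tif]

theorem cStep_enc (g : ℕ × ℕ) (w : List Bool) :
    cStep (T.node (T.unary g.1) (T.unary g.2)) (encW w) =
      encW (w ++ [!(w.getD g.1 false && w.getD g.2 false)]) := by
  have h1 : encW (w ++ [!(w.getD g.1 false && w.getD g.2 false)]) =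
      app (encW w) (T.node (Dec.lt !(w.getD g.1 false && w.getD g.2 false)) T.leaf) := by
    have h2 : ∀ (l : List T) (a : T), encL (l ++ [a]) = app (encL l) (T.node a T.leaf) := by
      intro l a
      induction l with
      | nil => rfl
      | cons b l ih => simp only [List.cons_append, encL_cons, app_node, ih]
    rw [encW, List.map_append, List.map_cons, List.map_nil, h2]
    rfl
  rw [h1, cStep, T.left_node, T.right_node, T.len_unary, T.len_unary, nthT_encW, nthT_encW,
    tif_lt, tif_lt]
  congr 2
  cases w.getD g.1 false <;> cases w.getD g.2 false <;> simp [Dec.lt]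

theorem cStep_fold (C : List (ℕ × ℕ)) (w : List Bool) :
    tfold cStep (encC C) (encW w) = encW (wires C w) := by
  induction C generalizing w with
  | nil => rfl
  | cons g C ih =>
    show tfold cStep (encC C) (cStep (T.node (T.unary g.1) (T.unary g.2)) (encW w)) = _
    rw [cStep_enc, ih]
    rfl

theorem cStep_polyTime : PolyTime₂ cStep := by
  have i := PolyTime.id
  have hn := LK_thm.2.1
  have h1 : PolyTime (fun z : T => nthT z.right z.left.left.len) :=
    hn _ _ i.right (PolyNat.len i.left.left)
  have h2 : PolyTime (fun z : T => nthT z.right z.left.right.len) :=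
    hn _ _ i.right (PolyNat.len i.left.right)
  exact i.right.app ((PolyTime.tif h1 (PolyTime.const _) (PolyTime.tif h2 (PolyTime.const _)
    (PolyTime.const _))).node (PolyTime.const _))

theorem cStep_size (h a : T) : (cStep h a).size ≤ a.size + 4 := by
  have h1 := app_size a (T.node (tif (nthT a h.left.len) (T.node T.leaf T.leaf)
    (tif (nthT a h.right.len) (T.node T.leaf T.leaf) T.leaf)) T.leaf)
  have h2 : (tif (nthT a h.left.len) (T.node T.leaf T.leaf)
      (tif (nthT a h.right.len) (T.node T.leaf T.leaf) T.leaf)).size ≤ 3 := by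
    unfold tif
    split_ifs <;> simp [T.size]
  simp only [T.size] at h1
  unfold cStep
  omega

theorem cFold_size (l a : T) : (tfold cStep l a).size ≤ 4 * l.size + a.size := by
  induction l generalizing a with
  | leaf => simp [tfold]
  | node h t _ ih =>
    have h1 := ih (cStep h a)
    have h2 := cStep_size h a
    have h3 := T.size_pos h
    simp only [tfold, T.size]
    omega

/-- Evaluation of circuits. -/
def evalT (v : T) : T := tfold (fun h _ => h) (tfold cStep v.left v.right.left) T.leaf

theorem evalT_polyTime : PolyTime evalT := by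
  have i := PolyTime.id
  have h1 : PolyTime₂ (tfold cStep) :=
    PolyTime₂.tfold cStep_polyTime (G := fun n => 4 * n) ((PolyB.const 4).mul PolyB.id)
      (fun a b h => by dsimp only; omega) (fun l a => by have := cFold_size l a; omega)
  have h2 : PolyTime₂ (tfold (fun h _ => h)) :=
    PolyTime₂.tfold (g := fun h _ => h) PolyTime.left' (G := fun n => n) PolyB.id
      (fun a b h => h) Dec.last_size
  exact h2.comp (h1.comp i.left i.right.left) PolyTime.leaf

theorem last_encW (w : List Bool) :
    tfold (fun h _ => h) (encW w) T.leaf ≠ T.leaf ↔ w.getLast? = some true := by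
  rw [tfold_eq, encW, toL_encL]
  rcases List.eq_nil_or_concat w with rfl | ⟨l, b, rfl⟩
  · simp
  · rw [List.concat_eq_append, List.map_append, List.foldl_append]
    cases b <;> simp [Dec.lt]

theorem bl_eq (x : ℕ) : bl x = encW (digits x) := by
  induction x using Nat.strong_induction_on with
  | _ x ih =>
    rcases Nat.eq_zero_or_pos x with rfl | hx
    · rw [bl_zero]
      rfl
    · have h1 : x.size = (x / 2).size + 1 := by
        have h2 := Nat.div_add_mod x 2
        rcases Nat.mod_two_eq_zero_or_one x with h3 | h3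
        · have h4 : x = Nat.bit false (x / 2) := by simp [Nat.bit]; omega
          conv_lhs => rw [h4]
          rw [Nat.size_bit (by rw [← h4]; omega)]
        · have h4 : x = Nat.bit true (x / 2) := by simp [Nat.bit]; omega
          conv_lhs => rw [h4]
          rw [Nat.size_bit (by rw [← h4]; omega)]
      have h2 : digits x = x.testBit 0 :: digits (x / 2) := by
        rw [digits, h1, List.range_succ_eq_map, List.map_cons, List.map_map, digits]
        congr 1
        refine List.map_congr_left fun i _ => ?_
        show x.testBit (i + 1) = _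
        rw [Nat.testBit_succ]
      rw [bl_pos (by omega), h2, encW, List.map_cons, encL_cons, ih (x / 2) (by omega)]
      congr 1
      rw [Nat.testBit_zero, bit, Dec.lt]
      rcases Nat.mod_two_eq_zero_or_one x with h3 | h3 <;> simp [h3]

theorem evalT_eq (C : List (ℕ × ℕ)) (x s : ℕ) :
    evalT (T.node (encC C) (T.node (bl x) (T.unary s))) ≠ T.leaf ↔ AcceptsC C x := by
  rw [evalT, T.left_node, T.right_node, T.left_node, bl_eq, cStep_fold, last_encW]
  rfl

theorem encC_size {m : ℕ} {C : List (ℕ × ℕ)} (h : IsCircuit m C) :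
    (encC C).size ≤ C.length * (4 * (m + C.length) + 4) + 1 := by
  have h1 : ∀ a ∈ C.map (fun g => T.node (T.unary g.1) (T.unary g.2)),
      a.size ≤ 4 * (m + C.length) + 3 := by
    intro a ha
    obtain ⟨g, hg, rfl⟩ := List.mem_map.1 ha
    obtain ⟨k, hk, rfl⟩ := List.getElem_of_mem hg
    have := h k hk
    simp only [T.size, T.size_unary]
    omega
  have h2 := encL_size h1
  rw [List.length_map] at h2
  exact h2

/-- Hardness for programs with advice implies hardness for circuits. -/
theorem HardForAdvice.circuits {A : Set ℕ} (h : HardForAdvice A) : HardForCircuits A := by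
  obtain ⟨e₀, m₀, h₀⟩ := h evalT evalT_polyTime
  obtain ⟨M₀, hM₀⟩ := arith 2 (4 * (e₀ + 1)) 0 le_rfl (by omega)
  refine ⟨2 * 2 * (4 * (e₀ + 1)), max M₀ m₀, fun m hm C hC hs => ?_⟩
  obtain ⟨-, -, h1⟩ := hM₀ m ((le_max_left _ _).trans hm)
  have h2 := h1 C.length hs
  obtain ⟨X, hX⟩ : ∃ X, X = 3 * C.length + 3 * m + 10 := ⟨_, rfl⟩
  rw [← hX] at h2
  have h3 := encC_size hC
  have h4 : C.length * (4 * (m + C.length) + 4) + 1 ≤ X ^ 4 := by
    have h5 : C.length ≤ X := by omega
    have h6 : 4 * (m + C.length) + 4 ≤ 2 * X := by omega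
    have h7 : 10 ≤ X := by omega
    calc C.length * (4 * (m + C.length) + 4) + 1 ≤ X * (2 * X) + 1 :=
          Nat.add_le_add_right (Nat.mul_le_mul h5 h6) _
      _ ≤ X ^ 4 := by
        have h8 : 3 * X ^ 2 ≤ X ^ 2 * X ^ 2 := Nat.mul_le_mul_right _ (by nlinarith)
        have h9 : X ^ 4 = X ^ 2 * X ^ 2 := by ring
        have h10 : X * (2 * X) = 2 * X ^ 2 := by ring
        have h11 : 1 ≤ X ^ 2 := Nat.one_le_pow _ _ (by omega)
        omega
  obtain ⟨x, hx1, hx2⟩ := h₀ m ((le_max_right _ _).trans hm) (X ^ 4) (encC C) (by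
    calc (X ^ 4) ^ e₀ = X ^ (4 * e₀) := by rw [← pow_mul]
      _ ≤ X ^ (4 * (e₀ + 1)) := Nat.pow_le_pow_right (by omega) (by omega)
      _ ≤ 2 ^ (m / 2) := h2
      _ ≤ 2 ^ m := Nat.pow_le_pow_right (by norm_num) (Nat.div_le_self _ _)) (h3.trans h4)
  refine ⟨x, hx1, ?_⟩
  rw [evalT_eq] at hx2
  exact hx2

end Pool.Agent.Q2E
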