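import Pool.Agent.Q2E.Num
import Pool.Agent.Lib_helper19.Recursion
import Pool.Agent.RU.Ball

/-!
# If totality is decidable in time `n ^ f(c)`, then some set in E has no short coNP-checkable proofs
-/

set_option autoImplicit false

namespace Pool.Agent.Q2E

open Pool.Agent.H19 Pool.Agent.H19.T Pool.Agent.PO Pool.Agent.S2L Pool.Agent.RU

/-- The input of the referee for the number `x` and the messages `y` and `z`; `s` is the bound on
the size of the messages. -/
def vin (x s : ℕ) (y z : T) : T := T.node (bl x) (T.node (T.node y z) (T.unary s))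

/-- `B` is a sound coNP-checkable proof system for `A`: if for some `s` a message `y` of size at
most `s` wins against all messages `z` of size at most `s`, then `x` is in `A`. -/
def SoundFor (B : T → T) (A : Set ℕ) : Prop :=
  ∀ (x s : ℕ) (y : T), y.size ≤ s → (∀ z : T, z.size ≤ s → B (vin x s y z) ≠ T.leaf) → x ∈ A

/-- In every sound coNP-checkable proof system some members of `A`, of each large length `m`, have
only proofs of size more than `2 ^ (m / e)`. -/
def NoShortProofs (A : Set ℕ) : Prop :=
  ∀ B : T → T, PolyTime B → SoundFor B A → ∃ e m₀ : ℕ, ∀ m ≥ m₀, ∃ x ∈ A, x.size = m ∧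
    ∀ (s : ℕ) (y : T), s ^ e ≤ 2 ^ m → y.size ≤ s →
      ∃ z : T, z.size ≤ s ∧ B (vin x s y z) = T.leaf

theorem bex {P : T → Prop} (hP : PolyDec P) {n : T → ℕ} (hn : PolyNat n) :
    PolyDec (fun x => ∃ i < n x, P (T.node x (T.unary i))) := by
  refine ((PolyDec.ball hP.not hn).not).congr fun x => ?_
  push Not
  rfl

/-- The size of a tree is odd. -/
theorem size_odd (x : T) : ∃ j, x.size = 2 * j + 1 := by
  induction x with
  | leaf => exact ⟨0, rfl⟩
  | node a b iha ihb =>
    obtain ⟨i, hi⟩ := iha
    obtain ⟨j, hj⟩ := ihb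
    exact ⟨i + j + 1, by simp only [T.size]; omega⟩

section
variable (d : Code)

/-- The set of the codes of the true assertions: the program `d` accepts `(c, 1 ^ n)` at cost at
most `b`. -/
def InU (x : ℕ) : Prop := ∃ n < x + 1, ∃ b < x + 1, (dN x).right = T.node (bl n) (bl b) ∧
  (simulF (T.node d.enc (T.node (T.node (dN x).left.left (T.unary n)) (T.unary b)))).right ≠ T.leaf

theorem inU_polyDec (hs : PolyTime simulF) : PolyDec (fun w : T => InU d w.len) := by
  have i := PolyTime.id
  have hx : PolyTime (fun w : T => dN w.left.left.len) :=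
    dN_polyTime (PolyNat.len i.left.left).toN
  have h2 : PolyDec (fun w : T => (dN w.left.left.len).right =
      T.node (bl w.left.right.len) (bl w.right.len) ∧
      (simulF (T.node d.enc (T.node (T.node (dN w.left.left.len).left.left
        (T.unary w.left.right.len)) (T.unary w.right.len)))).right ≠ T.leaf) :=
    (PolyDec.eq hx.right ((PolyNat.len i.left.right).toN.node (PolyNat.len i.right).toN)).and
      (PolyDec.ne_leaf (hs.comp ((PolyTime.const _).node ((hx.left.left.node
        (PolyNat.len i.left.right).unary).node (PolyNat.len i.right).unary))).right)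
  have h3 := bex h2 (n := fun w => w.left.len + 1) ((PolyNat.len i.left).add (PolyNat.const 1))
  have h4 := bex h3 (n := fun w => w.len + 1) ((PolyNat.len i).add (PolyNat.const 1))
  refine h4.congr fun w => ?_
  simp only [T.left_node, T.right_node, T.len_unary]
  rfl

theorem inU_inE (hs : PolyTime simulF) : InE {x | InU d x} := by
  obtain ⟨f, hf, h⟩ := inU_polyDec d hs
  refine ⟨f, hf, fun x => ?_⟩
  have := h (T.unary x)
  beta_reduce at this
  rw [T.len_unary] at this
  exact this

end

/-! ### The program -/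

section
variable (B : T → T)

/-- The parts of an instance `X = node (node y (unary s)) (node (node (bl b) (unary m)) P)`. -/
def sy (X : T) : T := X.left.left
def ss (X : T) : ℕ := X.left.right.len
def sb (X : T) : ℕ := bn X.right.left.left
def sm (X : T) : ℕ := X.right.left.right.len

/-- The tree coded by the number of which `X` claims to have a proof. -/
def tX (X cE : T) : T := T.node (T.node cE T.leaf) (T.node (bl X.size) (bl (sb X)))

/-- The instance is relevant. -/
def Valid (X cE : T) : Prop := (sy X).size ≤ ss X ∧ (tX X cE).size + 2 ≤ sm X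

/-- The candidate `z` is a solution of the instance `X`. -/
def Acc (cE X z : T) : Prop := ¬ Valid X cE ∨
  (z.size ≤ ss X ∧ B (vin (cN (tX X cE) (sm X + 1)) (ss X) (sy X) z) = T.leaf)

theorem acc_polyDec (hB : PolyTime B) :
    PolyDec (fun W : T => Acc B W.right.left W.left.left W.left.right) := by
  have i := PolyTime.id
  have hX : PolyTime (fun W : T => W.left.left) := i.left.left
  have hy : PolyTime (fun W : T => sy W.left.left) := hX.left.left
  have hs : PolyNat (fun W : T => ss W.left.left) := PolyNat.len hX.left.right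
  have hb : PolyN (fun W : T => sb W.left.left) := canon_polyTime.comp hX.right.left.left
  have hm : PolyNat (fun W : T => sm W.left.left) := PolyNat.len hX.right.left.right
  have ht : PolyTime (fun W : T => tX W.left.left W.right.left) :=
    (i.right.left.node PolyTime.leaf).node ((PolyNat.size hX).toN.node hb)
  have hx : PolyN (fun W : T => cN (tX W.left.left W.right.left) (sm W.left.left + 1)) :=
    cN_polyN ht (hm.add (PolyNat.const 1))
  have hV : PolyDec (fun W : T => Valid W.left.left W.right.left) :=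
    (PolyDec.le (PolyNat.size hy) hs).and
      (PolyDec.le ((PolyNat.size ht).add (PolyNat.const 2)) hm)
  exact hV.not.or ((PolyDec.le (PolyNat.size i.left.right) hs).and
    (PolyDec.eq_leaf (hB.comp (hx.node ((hy.node i.left.right).node hs)))))

end

/-! ### Numbers -/

theorem exists_large (K : ℕ) : ∃ q₀ : ℕ, ∀ q ≥ q₀, 3 * K * (q + 3) + 5 ≤ 2 ^ q := by
  have h : ∀ q : ℕ, q + 1 ≤ 2 ^ q := fun q => Nat.lt_two_pow_self
  refine ⟨3 * K + 8 + K * (3 * K + 11), fun q hq => ?_⟩
  obtain ⟨r, hr⟩ : ∃ r, q = (3 * K + 8) + r := ⟨q - (3 * K + 8), by omega⟩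
  have h1 := h (3 * K + 8)
  have h3 : r + 1 ≤ 2 ^ r := h r
  have h4 : (2 : ℕ) ^ q = 2 ^ (3 * K + 8) * 2 ^ r := by rw [hr, pow_add]
  have h5 : (3 * K + 9) * (r + 1) ≤ 2 ^ q := by
    rw [h4]
    exact Nat.mul_le_mul (by omega) h3
  have h6 : K * (3 * K + 11) ≤ r := by omega
  rw [hr] at h5 ⊢
  nlinarith

/-- The main step. -/
theorem core (hS : SIMF_stmt) (hX : TotalityInXP) : ∃ A : Set ℕ, InE A ∧ NoShortProofs A := by
  obtain ⟨hs1, hs2, hs3⟩ := hS
  obtain ⟨d, hd⟩ := hX
  refine ⟨{x | InU d x}, inU_inE d hs1, ?_⟩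
  intro B hB hsound
  obtain ⟨D, hD, hDacc⟩ := acc_polyDec B hB
  obtain ⟨c, κ, hc⟩ := recursion hD
  have hhalt : HaltsWithin c κ := fun x => by
    obtain ⟨t, h1, h2⟩ := hc x
    exact ⟨_, t, h1, h2⟩
  -- the search problem of `c`
  have hacc : ∀ X z : T, (∃ (y : T) (t : ℕ), Eval c (T.node X z) y t ∧ y ≠ T.leaf) ↔
      Acc B c.enc X z := by
    intro X z
    obtain ⟨t, h1, _⟩ := hc (T.node X z)
    have h2 := hDacc (T.node (T.node X z) (T.node c.enc (T.unary κ)))
    simp only [T.left_node, T.right_node] at h2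
    rw [h2]
    constructor
    · rintro ⟨y, t', h3, h4⟩
      obtain ⟨h5, _⟩ := h1.det h3
      rw [h5]
      exact h4
    · exact fun h => ⟨_, t, h1, h⟩
  obtain ⟨k, hk⟩ := hd c ⟨κ, hhalt⟩
  -- totality
  have htot : ∀ X : T, ∃ z : T, z.size ≤ X.size ∧ Acc B c.enc X z := by
    intro X
    by_contra hno
    push Not at hno
    have hleaf := hno T.leaf (T.size_pos X)
    have hval : Valid X c.enc := by
      by_contra h
      exact hleaf (Or.inl h)
    have hall : ∀ z : T, z.size ≤ ss X →
        B (vin (cN (tX X c.enc) (sm X + 1)) (ss X) (sy X) z) ≠ T.leaf := by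
      intro z hz hB0
      have h1 : ss X ≤ X.size := by
        have h2 := T.len_lt_size X.left.right
        have h3 := T.size_right_le X.left
        have h4 := T.size_left_le X
        unfold ss
        omega
      exact hno z (hz.trans h1) (Or.inr ⟨hz, hB0⟩)
    have hmem : InU d (cN (tX X c.enc) (sm X + 1)) := hsound _ _ _ hval.1 hall
    obtain ⟨n, _, b, _, h3, h4⟩ := hmem
    have h5 : dN (cN (tX X c.enc) (sm X + 1)) = tX X c.enc := dN_cN (by have := hval.2; omega)
    rw [h5] at h3 h4
    have h6 : X.size = n := by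
      simp only [tX, T.right_node, T.node.injEq] at h3
      exact bl_inj.1 h3.1
    obtain ⟨y, t, h7, _, h8⟩ := hk n
    have h9 := hs3 d (T.node c.enc (T.unary n)) y (T.unary b) t h7
    have h10 : (tX X c.enc).left.left = c.enc := rfl
    rw [h10] at h4
    have h11 : y ≠ T.leaf := by
      rcases h9 with h | h
      · rw [h] at h4
        exact absurd rfl h4
      · rw [h] at h4
        exact h4
    obtain ⟨z, hz, h12⟩ := (h8.1 h11) X (by omega)
    exact hno z hz ((hacc X z).1 h12)
  have htotal : ∀ n, TotalUpTo c n := fun n X _ => by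
    obtain ⟨z, hz, h⟩ := htot X
    exact ⟨z, hz, (hacc X z).2 h⟩
  -- the numbers
  set K : ℕ := c.enc.size + 20 * k + 40 with hK
  obtain ⟨q₀, hq₀⟩ := exists_large K
  refine ⟨2 * K, K * (q₀ + 12), ?_⟩
  intro m hm
  have hK0 : 0 < K := by omega
  obtain ⟨q, hqdef⟩ : ∃ q, q = m / K - 2 := ⟨_, rfl⟩
  have hmK : q₀ + 12 ≤ m / K := (Nat.le_div_iff_mul_le hK0).2 (by linarith)
  have hq1 : m / K = q + 2 := by omega
  have hq2 : q₀ ≤ q ∧ 7 ≤ q := by omega
  have hm1 : K * (q + 2) ≤ m := by
    have := Nat.div_mul_le_self m K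
    rw [hq1] at this
    linarith
  have hm2 : m < K * (q + 3) := by
    have := Nat.lt_mul_div_succ m hK0
    rw [hq1] at this
    exact this
  obtain ⟨n, hn⟩ : ∃ n, n = 2 * 2 ^ q + 1 := ⟨_, rfl⟩
  obtain ⟨b, hb⟩ : ∃ b, b = (n + 2) ^ k := ⟨_, rfl⟩
  have hnsize : n.size ≤ q + 2 := by
    rw [Nat.size_le, hn]
    have : 1 ≤ 2 ^ q := Nat.one_le_two_pow
    have h2 : 2 ^ (q + 2) = 4 * 2 ^ q := by ring
    omega
  have hbsize : b.size ≤ k * (q + 5) + 1 := by
    rw [Nat.size_le, hb]
    have h1 : n + 2 ≤ 2 ^ (q + 5) := by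
      have h2 : 2 ^ (q + 5) = 32 * 2 ^ q := by ring
      have : 1 ≤ 2 ^ q := Nat.one_le_two_pow
      omega
    calc (n + 2) ^ k ≤ (2 ^ (q + 5)) ^ k := Nat.pow_le_pow_left h1 _
      _ = 2 ^ (k * (q + 5)) := by rw [← pow_mul, mul_comm]
      _ < 2 ^ (k * (q + 5) + 1) := Nat.pow_lt_pow_right (by norm_num) (by omega)
  obtain ⟨X', hX'⟩ : ∃ X', X' = T.node (T.node c.enc T.leaf) (T.node (bl n) (bl b)) := ⟨_, rfl⟩
  have hsz : X'.size + (bl b).size ≤ K * (q + 1) := by
    have h1 := bl_size n
    have h2 := bl_size b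
    have h3 : X'.size = c.enc.size + (bl n).size + (bl b).size + 4 := by
      rw [hX']
      simp only [T.size]
      omega
    rw [h3, hK]
    nlinarith
  have hKq : K * (q + 1) + K ≤ m := by
    have : K * (q + 2) = K * (q + 1) + K := by ring
    omega
  have hX'm : X'.size + (bl b).size + 3 ≤ m := by omega
  have hX'n : (bl n).size ≤ X'.size := by
    rw [hX']
    simp only [T.size]
    omega
  refine ⟨cN X' m, ?_, cN_size (by omega), ?_⟩
  · -- membership
    show InU d _
    have hbig : 2 ^ (m - 1) ≤ cN X' m := by unfold cN; omega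
    have hn1 : n < 2 ^ (m - 1) := by
      refine (Nat.lt_size_self n).trans_le (Nat.pow_le_pow_right (by norm_num) ?_)
      have h1 := size_le_bl n
      omega
    have hb1 : b < 2 ^ (m - 1) := by
      refine (Nat.lt_size_self b).trans_le (Nat.pow_le_pow_right (by norm_num) ?_)
      have h1 := size_le_bl b
      omega
    refine ⟨n, by omega, b, by omega, ?_, ?_⟩
    · rw [dN_cN (by omega), hX']
      rfl
    · rw [dN_cN (by omega), hX']
      simp only [T.left_node]
      obtain ⟨y, t, h7, h7', h8⟩ := hk n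
      rw [hs2 d _ y t b h7 (by rw [hb]; exact h7'), T.right_node]
      exact h8.2 (htotal n)
  · -- no short proofs
    intro s y hse hys
    have hs : s < 2 ^ (q - 2) := by
      by_contra hcon
      push Not at hcon
      have h1 : 2 ^ m < s ^ (2 * K) := by
        calc 2 ^ m < 2 ^ (K * (q + 3)) := Nat.pow_lt_pow_right (by norm_num) hm2
          _ ≤ 2 ^ ((q - 2) * (2 * K)) := by
            refine Nat.pow_le_pow_right (by norm_num) ?_
            have h2 : q + 3 ≤ 2 * (q - 2) := by omega
            calc K * (q + 3) ≤ K * (2 * (q - 2)) := Nat.mul_le_mul_left _ h2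
              _ = (q - 2) * (2 * K) := by ring
          _ = (2 ^ (q - 2)) ^ (2 * K) := by rw [pow_mul]
          _ ≤ s ^ (2 * K) := Nat.pow_le_pow_left hcon _
      omega
    have hpow : 4 * 2 ^ (q - 2) = 2 ^ q := by
      have h1 : q = (q - 2) + 2 := by omega
      conv_rhs => rw [h1, pow_add]
      ring
    have hlarge := hq₀ q hq2.1
    have hroom : y.size + 2 * s + (bl b).size + 2 * m + 5 ≤ n := by
      have h1 : (bl b).size ≤ m := by omega
      have h2 : 3 * m ≤ 3 * K * (q + 3) := by nlinarith
      omega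
    obtain ⟨j1, hj1⟩ := size_odd y
    obtain ⟨j2, hj2⟩ := size_odd (bl b)
    obtain ⟨p, hp⟩ : ∃ p, y.size + 2 * s + (bl b).size + 2 * m + 5 + 2 * p = n := by
      refine ⟨(n - (y.size + 2 * s + (bl b).size + 2 * m + 5)) / 2, ?_⟩
      omega
    obtain ⟨X, hX⟩ : ∃ X, X = T.node (T.node y (T.unary s))
        (T.node (T.node (bl b) (T.unary (m - 1))) (T.unary p)) := ⟨_, rfl⟩
    have hXs : X.size = n := by
      rw [hX]
      simp only [T.size, T.size_unary]
      omega
    obtain ⟨z, _, hz⟩ := htot X
    have e1 : sy X = y := by rw [hX]; rfl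
    have e2 : ss X = s := by rw [hX]; exact T.len_unary s
    have e3 : sb X = b := by rw [hX]; exact bn_bl b
    have e4 : sm X = m - 1 := by rw [hX]; exact T.len_unary _
    have e5 : tX X c.enc = X' := by rw [tX, e3, hXs, hX']
    have e6 : m - 1 + 1 = m := by omega
    rcases hz with hz | ⟨hz1, hz2⟩
    · refine absurd ?_ hz
      unfold Valid
      rw [e1, e2, e4, e5]
      exact ⟨hys, by omega⟩
    · rw [e2] at hz1
      rw [e1, e2, e4, e5, e6] at hz2
      exact ⟨z, hz1, hz2⟩

end Pool.Agent.Q2E
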