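import Pool.Agent.Q2E.Tab
import Pool.Agent.Q2E.Core
import Pool.Agent.S2L.Trace
import Pool.Agent.S2L.Lk
import Pool.Agent.S2L.Misc
import Pool.Agent.S2L.MainB
import Pool.Agent.S2L.Cod

/-!
# The records of the computations for a set in E, and the set of their digits
-/

set_option autoImplicit false

namespace Pool.Agent.Q2E

open Pool.Agent.H19 Pool.Agent.H19.T Pool.Agent.PO Pool.Agent.S2L Pool.Agent.RU

/-- The program `V` with `a` as second argument. -/
def chk (V : Code) (a : T) : Code := Code.comp V (Code.pair Code.id (Code.const a))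

theorem chk_enc (V : Code) (a : T) : (chk V a).enc = WE V.enc a := by
  simp only [WE, chk, Code.enc, qt_eq]

theorem chk_inv {V : Code} {a x y : T} {t : ℕ} (h : Eval (chk V a) x y t) :
    ∃ t, Eval V (T.node x a) y t := by
  rw [chk] at h
  cases h with
  | comp h1 h2 =>
    cases h1 with
    | pair h3 h4 =>
      cases h3
      rw [const_inv _ h4] at h2
      exact ⟨_, h2⟩

theorem chk_size (V : Code) (a : T) : (chk V a).enc.size ≤ V.enc.size + 20 * a.size + 30 := by
  have h := Pool.Agent.S2L.MISC.const_size a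
  simp only [chk, Code.enc, T.size, T.size_unary]
  omega

/-- Records of the accepting computations for the members of a set in E. -/
theorem fam_of {U : Set ℕ} (hU : InE U) :
    ∃ (V : Code) (F : T → T) (rec : ℕ → ℕ → Rec) (L : ℕ → ℕ) (C : ℕ), Family F rec L C ∧
      (∀ n ∈ U, Accepting (rec n) (L n) (chk V (bl n))) ∧
      ∀ (n : ℕ) (v y : T) (t : ℕ), Eval (chk V (bl n)) v y t → y ≠ T.leaf → n ∈ U := by
  classical
  obtain ⟨g, hg, hgU⟩ := hU
  obtain ⟨trace, C, htr, hT⟩ := TRACE_thm
  have i := PolyTime.id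
  have hdec : PolyDec (fun w : T => bn w.right = w.left.len ∧ g (T.unary w.left.len) ≠ T.leaf) :=
    (PolyDec.eqN (polyN_bn i.right) (PolyNat.len i.left).toN).and
      (PolyDec.ne_leaf (hg.comp (PolyNat.len i.left).unary))
  have hf1 := PolyTime.ifP hdec (PolyTime.const (T.node T.leaf T.leaf)) (PolyTime.const T.leaf)
  obtain ⟨V, kV, hV⟩ := hf1
  -- the budget
  let b : ℕ → ℕ → ℕ := fun X Q => X + Q + 2 + (X + Q + 3) ^ kV
  have hu : PolyNat (fun z : T => z.len) := PolyNat.len i
  have hθ : PolyTime (fun z : T => bl z.len) := hu.toN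
  have hb : PolyNat (fun z : T => b (T.unary z.len).size (bl z.len).size) :=
    (((PolyNat.size hu.unary).add (PolyNat.size hθ)).add (PolyNat.const 2)).add
      ((((PolyNat.size hu.unary).add (PolyNat.size hθ)).add (PolyNat.const 3)).pow kV)
  obtain ⟨F, hF, hF1, hF2⟩ : ∃ F : T → T, PolyTime F ∧
      (∀ z : T, g (T.unary z.len) ≠ T.leaf → F z = trace (T.node (WE V.enc (bl z.len))
        (T.node (T.unary z.len) (T.unary (b (T.unary z.len).size (bl z.len).size))))) ∧
      ∀ z : T, g (T.unary z.len) = T.leaf → F z = encL [Rec.leaf.enc] :=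
    ⟨_, PolyTime.ifP (PolyDec.ne_leaf (hg.comp hu.unary))
      (htr.comp ((WE_poly V.enc hθ).node (hu.unary.node hb.unary)))
      (PolyTime.const (encL [Rec.leaf.enc])), fun z hz => if_pos hz, fun z hz => if_neg (by
        rw [hz]; simp)⟩
  -- the computations
  have key : ∀ n : ℕ, ∃ (r : ℕ → Rec) (L : ℕ), L ≠ 0 ∧
      (n ∈ U → Accepting r L (chk V (bl n))) ∧
      F (T.unary n) = encL ((List.range L).map fun i => (r i).enc) ∧
      ∀ i < L, (r i).enc.size ≤ C * ((chk V (bl n)).enc.size + L.size + 1) + 1 := by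
    intro n
    by_cases hn : n ∈ U
    · have hgn := (hgU n).1 hn
      obtain ⟨t, ht, htb⟩ := hV (T.node (T.unary n) (bl n))
      have hev : Eval (chk V (bl n)) (T.unary n) (T.node T.leaf T.leaf)
          (((T.unary n).size + (bl n).size + 1) + t + 1) := by
        refine Eval.comp (Eval.pair (Eval.id _) (Eval.const _ _)) ?_
        convert ht using 1
        simp only [T.left_node, T.right_node, bn_bl, T.len_unary]
        rw [if_pos ⟨trivial, hgn⟩]
      obtain ⟨r, L, h1, h2, h3⟩ := hT _ _ _ _ (b (T.unary n).size (bl n).size) hev (by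
        have e : (T.node (T.unary n) (bl n)).size + 2 =
            (T.unary n).size + (bl n).size + 3 := by
          simp only [T.size]
        rw [e] at htb
        show _ ≤ (T.unary n).size + (bl n).size + 2 + ((T.unary n).size + (bl n).size + 3) ^ kV
        omega) (by simp)
      refine ⟨r, L, h1.1.ne', fun _ => h1, ?_, fun i hi => (h3 i hi).trans (by omega)⟩
      rw [← h2, hF1 _ (by rw [T.len_unary]; exact hgn), T.len_unary, chk_enc]
    · have hgn : ¬ g (T.unary n) ≠ T.leaf := fun h => hn ((hgU n).2 h)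
      refine ⟨fun _ => Rec.leaf, 1, one_ne_zero, fun h => absurd h hn, ?_, fun i _ => ?_⟩
      · rw [hF2 _ (by rw [T.len_unary]; exact not_not.1 hgn)]
        rfl
      · show (T.leaf).size ≤ _
        simp only [T.size]
        omega
  choose rec L h0 h1 h2 h3 using key
  obtain ⟨k, hk⟩ := hF.size_bound
  refine ⟨V, _, rec, L, C * (V.enc.size + 3 * k + 200) + 1, ⟨hF, fun n => ⟨h0 n, h2 n⟩,
    fun n i hi => ?_⟩, fun n hn => h1 n hn, ?_⟩
  · have hL : L n ≤ (2 * n + 3) ^ k := by
      have e2 := hk (T.unary n)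
      rw [h2 n] at e2
      have e1 := T.len_lt_size (encL ((List.range (L n)).map fun i => (rec n i).enc))
      rw [encL_len, List.length_map, List.length_range] at e1
      rw [T.size_unary, show 2 * n + 1 + 2 = 2 * n + 3 by rfl] at e2
      omega
    have e4 := MB.size_of_le hL
    have e5 := chk_size V (bl n)
    have e6 := h3 n i hi
    have e7 := bl_size n
    have e8 : (chk V (bl n)).enc.size + (L n).size + 1 ≤
        (V.enc.size + 3 * k + 200) * (n.size + 1) := by
      have e9 : k * (n.size + 3) = k * n.size + 3 * k := by ring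
      have e10 : k * n.size ≤ 3 * k * n.size := by nlinarith [Nat.zero_le (k * n.size)]
      have e11 : (V.enc.size + 3 * k + 200) * (n.size + 1) = V.enc.size * n.size +
        3 * k * n.size + 200 * n.size + V.enc.size + 3 * k + 200 := by ring
      have e12 : 0 ≤ V.enc.size * n.size := Nat.zero_le _
      omega
    calc (rec n i).enc.size ≤ C * ((chk V (bl n)).enc.size + (L n).size + 1) + 1 := e6
      _ ≤ C * ((V.enc.size + 3 * k + 200) * (n.size + 1)) + 1 :=
          Nat.add_le_add_right (Nat.mul_le_mul_left _ e8) _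
      _ ≤ (C * (V.enc.size + 3 * k + 200) + 1) * (n.size + 1) := by
          have : (C * (V.enc.size + 3 * k + 200) + 1) * (n.size + 1) =
            C * ((V.enc.size + 3 * k + 200) * (n.size + 1)) + (n.size + 1) := by ring
          omega
  · intro n v y t he hy
    obtain ⟨t', h'⟩ := chk_inv he
    obtain ⟨t'', h'', _⟩ := hV (T.node v (bl n))
    obtain ⟨h4, _⟩ := h'.det h''
    rw [h4] at hy
    simp only [T.left_node, T.right_node, bn_bl] at hy
    split_ifs at hy with h5
    · rw [hgU, h5.1]
      exact h5.2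
    · exact absurd rfl hy

/-- The set of the (codes of the) digits of the records. -/
def DigitSet (rec : ℕ → ℕ → Rec) (L : ℕ → ℕ) : Set ℕ :=
  {a | ∃ n i d : ℕ, n < a + 1 ∧ i < a + 1 ∧ d < a + 1 ∧
    dN a = T.node (bl n) (T.node (bl i) (bl d)) ∧ digit (rec n (min i (L n - 1))).enc d}

theorem digitSet_inE {F : T → T} {rec : ℕ → ℕ → Rec} {L : ℕ → ℕ} {C : ℕ}
    (h : Family F rec L C) : InE (DigitSet rec L) := by
  classical
  obtain ⟨hF, hFL, hsz⟩ := h
  obtain ⟨-, hword, -, hdig, -⟩ := DEC_thm
  have hnth := LK_thm.2.1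
  have hlen : ∀ n, (F (T.unary n)).len = L n := by
    intro n
    rw [(hFL n).2, encL_len, List.length_map, List.length_range]
  have i := PolyTime.id
  have hz : PolyNat Cod.cz := PolyNat.len i.left.left.left
  have hn : PolyNat Cod.cn := PolyNat.len i.left.left.right
  have hi : PolyNat Cod.ci := PolyNat.len i.left.right
  have hd : PolyNat Cod.cdd := PolyNat.len i.right
  have hFn : PolyTime (fun w => F (T.unary (Cod.cn w))) := hF.comp hn.unary
  have hLn : PolyNat (fun w => (F (T.unary (Cod.cn w))).len) := PolyNat.len hFn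
  have hmin : PolyNat (fun w => min (Cod.ci w) ((F (T.unary (Cod.cn w))).len - 1)) := by
    refine (PolyNat.ifP (PolyDec.le hi (hLn.sub (PolyNat.const 1))) hi
      (hLn.sub (PolyNat.const 1))).congr fun x => ?_
    congr 1
  have hdec : PolyDec (fun w =>
      dN (Cod.cz w) = T.node (bl (Cod.cn w)) (T.node (bl (Cod.ci w)) (bl (Cod.cdd w))) ∧
      nthT (wordT (nthT (F (T.unary (Cod.cn w)))
        (min (Cod.ci w) ((F (T.unary (Cod.cn w))).len - 1)))) (Cod.cdd w) ≠ T.leaf) := by
    refine (PolyDec.eq (dN_polyTime hz.toN) (hn.toN.node (hi.toN.node hd.toN))).and ?_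
    exact PolyDec.ne_leaf (hnth _ _ (hword.comp (hnth _ _ hFn hmin)) hd)
  have hex := bex (bex (bex hdec (n := fun w => w.left.left.len + 1)
    ((PolyNat.len i.left.left).add (PolyNat.const 1))) (n := fun w => w.left.len + 1)
    ((PolyNat.len i.left).add (PolyNat.const 1))) (n := fun w => w.len + 1)
    ((PolyNat.len i).add (PolyNat.const 1))
  obtain ⟨f, hf, hff⟩ := hex
  refine ⟨f, hf, fun x => ?_⟩
  rw [← hff]
  simp only [Cod.cz, Cod.cn, Cod.ci, Cod.cdd, T.left_node, T.right_node, T.len_unary]
  have hrec : ∀ n i d, nthT (wordT (nthT (F (T.unary n)) (min i ((F (T.unary n)).len - 1)))) d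
      ≠ T.leaf ↔ digit (rec n (min i (L n - 1))).enc d := by
    intro n i d
    rw [hdig, hlen]
    have h1 : min i (L n - 1) < L n := by
      have := (hFL n).1
      omega
    have h2 : nthT (F (T.unary n)) (min i (L n - 1)) = (rec n (min i (L n - 1))).enc := by
      rw [(hFL n).2, Cod.nthT_encL _ _ _ (by rw [List.length_range]; exact h1),
        List.getElem_range]
    rw [h2]
  constructor
  · rintro ⟨n, i, d, h1, h2, h3, h4, h5⟩
    exact ⟨n, h1, i, h2, d, h3, h4, (hrec n i d).2 h5⟩
  · rintro ⟨n, h1, i, h2, d, h3, h4, h5⟩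
    exact ⟨n, i, d, h1, h2, h3, h4, (hrec n i d).1 h5⟩

/-- The codes of given length of the digits. -/
theorem mem_digitSet {rec : ℕ → ℕ → Rec} {L : ℕ → ℕ} {n i d m : ℕ}
    (hm : (T.node (bl n) (T.node (bl i) (bl d))).size + 3 ≤ m) :
    cN (T.node (bl n) (T.node (bl i) (bl d))) m ∈ DigitSet rec L ↔
      digit (rec n (min i (L n - 1))).enc d := by
  obtain ⟨X, hX⟩ : ∃ X, X = T.node (bl n) (T.node (bl i) (bl d)) := ⟨_, rfl⟩
  rw [← hX] at hm ⊢
  have hdN : dN (cN X m) = X := dN_cN hm
  have hbig : 2 ^ (m - 1) ≤ cN X m := by unfold cN; omega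
  have hsz : X.size = (bl n).size + (bl i).size + (bl d).size + 2 := by
    rw [hX]
    simp only [T.size]
    omega
  have hlt : ∀ j : ℕ, (bl j).size ≤ m - 1 → j < cN X m + 1 := by
    intro j hj
    have h1 : j < 2 ^ (m - 1) := by
      refine (Nat.lt_size_self j).trans_le (Nat.pow_le_pow_right (by norm_num) ?_)
      have h1 := size_le_bl j
      omega
    omega
  constructor
  · rintro ⟨n', i', d', -, -, -, h4, h5⟩
    rw [hdN, hX] at h4
    simp only [T.node.injEq, bl_inj] at h4
    obtain ⟨rfl, rfl, rfl⟩ := h4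
    exact h5
  · intro h
    exact ⟨n, i, d, hlt _ (by omega), hlt _ (by omega), hlt _ (by omega), hdN.trans hX, h⟩

end Pool.Agent.Q2E
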