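import Pool.Agent.Q2E.Fam

/-!
# If a set in E has no short coNP-checkable proofs, then E is hard for programs with advice

A set `U` in E without short coNP-checkable proofs is given. The records of accepting computations
for its members have digits which form another set in E. If this set were decided, at some length,
by an algorithm with short advice, the advice would be a proof of the membership in `U`: the
opponent may point to a record which violates the rules.
-/

set_option autoImplicit false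

namespace Pool.Agent.Q2E

open Pool.Agent.H19 Pool.Agent.H19.T Pool.Agent.PO Pool.Agent.S2L Pool.Agent.RU

/-- For every polynomial-time function `F` there are `e`, `m₀` such that for no length `m ≥ m₀`
and no advice `D` of size at most `s`, `s ≤ 2 ^ (m / e)`, the function `F`, given `D`, `x` in
binary and `s` in unary, decides whether `x` is in `A` for all numbers `x` of length `m`. -/
def HardForAdvice (A : Set ℕ) : Prop :=
  ∀ F : T → T, PolyTime F → ∃ e m₀ : ℕ, ∀ m ≥ m₀, ∀ (s : ℕ) (D : T), s ^ e ≤ 2 ^ m → D.size ≤ s →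
    ∃ x : ℕ, x.size = m ∧ ¬ (x ∈ A ↔ F (T.node D (T.node (bl x) (T.unary s))) ≠ T.leaf)

theorem acc_sound {W : Code} {R : ℕ → T} {L : ℕ} (hL : L ≠ 0)
    (h : ∀ i < L, CheckT R i ∧ (i + 1 ≠ L ∨ FinalT R i W.enc)) :
    ∃ (x y : T) (t : ℕ), Eval W x y t ∧ y ≠ T.leaf := by
  obtain ⟨i, rfl⟩ := Nat.exists_eq_succ_of_ne_zero hL
  obtain ⟨h1, h2⟩ := h i (by omega)
  obtain ⟨h3, h4, h5, h6⟩ := h2.resolve_left (by simp)
  obtain ⟨t, ht⟩ := check_sound (fun k hk => (h k hk).1) i (by omega) _ h3 h4
  refine ⟨_, _, t, ht, ?_⟩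
  rw [val_node (h _ (h5.trans (by omega))).1 h6]
  simp

/-! ### The parts of `v = vin x s (node (node D (unary s₁)) (node l (unary m))) z` -/

def pX (v : T) : ℕ := bn v.left
def pD (v : T) : T := v.right.left.left.left.left
def ps (v : T) : ℕ := v.right.left.left.left.right.len
def pl' (v : T) : T := v.right.left.left.right.left
def pm (v : T) : ℕ := v.right.left.left.right.right.len
def pz (v : T) : ℕ := bn v.right.left.right
def pS (v : T) : ℕ := v.right.right.len

section
variable (F : T → T) (V : T) (C : ℕ)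

/-- The digit number `u.right.len` of the record number `bn u.left.right`, as a leaf or not. -/
def dig (u : T) : T :=
  T.node (F (T.node (pD u.left.left) (T.node
    (bl (cN (T.node (bl (pX u.left.left)) (T.node (bl (bn u.left.right)) (bl u.right.len)))
      (pm u.left.left))) (T.unary (ps u.left.left))))) T.leaf

/-- The records. -/
def GR (w : T) : T := decT (tab (dig F) w (C * ((pX w.left).size + 1)))

/-- The opponent wins. -/
def Bad (v : T) : Prop := pS v < 2 * (pl' v).size ∨ bn (pl' v) = 0 ∨ (pz v < bn (pl' v) ∧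
  ¬ (CheckT (fun k => GR F C (T.node v (bl k))) (pz v) ∧ (pz v + 1 ≠ bn (pl' v) ∨
    FinalT (fun k => GR F C (T.node v (bl k))) (pz v) (WE V (bl (pX v))))))

end

theorem dig_polyTime {F : T → T} (hF : PolyTime F) : PolyTime (dig F) := by
  have i := PolyTime.id
  have hv : PolyTime (fun u : T => u.left.left) := i.left.left
  have hX : PolyN (fun u : T => pX u.left.left) := polyN_bn hv.left
  have hm : PolyNat (fun u : T => pm u.left.left) := PolyNat.len hv.right.left.left.right.right
  have hs : PolyNat (fun u : T => ps u.left.left) := PolyNat.len hv.right.left.left.left.right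
  have hj : PolyN (fun u : T => bn u.left.right) := polyN_bn i.left.right
  have hk : PolyN (fun u : T => u.right.len) := (PolyNat.len i.right).toN
  have ht : PolyTime (fun u : T => T.node (bl (pX u.left.left))
    (T.node (bl (bn u.left.right)) (bl u.right.len))) := hX.node (hj.node hk)
  have hc : PolyTime (fun u : T => bl (cN (T.node (bl (pX u.left.left))
    (T.node (bl (bn u.left.right)) (bl u.right.len))) (pm u.left.left))) := cN_polyN ht hm
  exact (hF.comp (hv.right.left.left.left.left.node (hc.node hs.unary))).node PolyTime.leaf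

theorem GR_polyTime {F : T → T} (hF : PolyTime F) (C : ℕ) : PolyTime (GR F C) := by
  have i := PolyTime.id
  have hX : PolyN (fun w : T => pX w.left) := polyN_bn i.left.left
  exact DEC_thm.1.comp (tab_polyTime (dig_polyTime hF)
    ((PolyNat.const C).mul (hX.size.add (PolyNat.const 1))))

theorem bad_polyDec {F : T → T} (hF : PolyTime F) (V : T) (C : ℕ) : PolyDec (Bad F V C) := by
  have i := PolyTime.id
  have hG := GR_polyTime hF C
  have hX : PolyN pX := polyN_bn i.left
  have hl : PolyTime pl' := i.right.left.left.right.left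
  have hL : PolyN (fun v => bn (pl' v)) := polyN_bn hl
  have hz : PolyN pz := polyN_bn i.right.left.right
  have hS : PolyNat pS := PolyNat.len i.right.right
  refine ((PolyDec.le ((PolyNat.const 2).mul (PolyNat.size hl)) hS).not.congr
    fun v => by rw [Nat.not_le]).or ?_
  refine (PolyDec.eqN hL (PolyNat.const 0).toN).or ?_
  refine (ltN hz hL).and ?_
  refine ((CheckT_dec hG hz).and (((PolyDec.eqN (hz.add (PolyNat.const 1).toN) hL).not).or
    (FinalT_dec hG hz (WE_poly V hX)))).not

/-- Arithmetic. -/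
theorem arith (K e₀ m₁ : ℕ) (hK : 2 ≤ K) (he : 0 < e₀) : ∃ M₀ : ℕ, ∀ m' ≥ M₀, m₁ ≤ m' / K ∧
    1 ≤ m' / K ∧ ∀ s₁ : ℕ, s₁ ^ (2 * K * e₀) ≤ 2 ^ m' →
      (3 * s₁ + 3 * m' + 10) ^ e₀ ≤ 2 ^ (m' / K) := by
  obtain ⟨q₀, hq₀⟩ := exists_large (K * e₀)
  refine ⟨K * (e₀ * (q₀ + 8) + m₁), fun m' hm' => ?_⟩
  have hK0 : 0 < K := by omega
  obtain ⟨m, hm⟩ : ∃ m, m = m' / K := ⟨_, rfl⟩
  have h1 : e₀ * (q₀ + 8) + m₁ ≤ m := by
    rw [hm, Nat.le_div_iff_mul_le hK0, mul_comm]
    exact hm'
  have h2 : m' < K * (m + 1) := by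
    rw [hm]
    exact Nat.lt_mul_div_succ m' hK0
  obtain ⟨q, hq⟩ : ∃ q, q = m / e₀ := ⟨_, rfl⟩
  have h3 : q₀ + 8 ≤ q := by
    rw [hq, Nat.le_div_iff_mul_le he, mul_comm]
    omega
  have h4 : m < e₀ * (q + 1) := by
    rw [hq]
    exact Nat.lt_mul_div_succ m he
  have h5 : q * e₀ ≤ m := by
    rw [hq]
    exact Nat.div_mul_le_self m e₀
  have h5' : 1 ≤ e₀ * (q₀ + 8) := Nat.mul_pos he (by omega)
  rw [← hm]
  refine ⟨by omega, by omega, fun s₁ hs₁ => ?_⟩
  have h6 : m' < K * e₀ * (q + 1) := by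
    refine h2.trans_le ?_
    rw [mul_assoc]
    exact Nat.mul_le_mul_left _ (by omega)
  obtain ⟨p, hp⟩ : ∃ p, q = p + 3 := ⟨q - 3, by omega⟩
  have hs : s₁ < 2 ^ p := by
    by_contra hcon
    push Not at hcon
    have h7 : 2 ^ m' < s₁ ^ (2 * K * e₀) := by
      calc 2 ^ m' < 2 ^ (K * e₀ * (q + 1)) := Nat.pow_lt_pow_right (by norm_num) h6
        _ ≤ 2 ^ (p * (2 * K * e₀)) := by
          refine Nat.pow_le_pow_right (by norm_num) ?_
          calc K * e₀ * (q + 1) ≤ K * e₀ * (2 * p) := Nat.mul_le_mul_left _ (by omega)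
            _ = p * (2 * K * e₀) := by ring
        _ = (2 ^ p) ^ (2 * K * e₀) := by rw [pow_mul]
        _ ≤ s₁ ^ (2 * K * e₀) := Nat.pow_le_pow_left hcon _
    omega
  have hlarge := hq₀ (p + 2) (by omega)
  have h8 : (2 : ℕ) ^ q = 8 * 2 ^ p := by rw [hp, pow_add]; ring
  have h9 : (2 : ℕ) ^ (p + 2) = 4 * 2 ^ p := by rw [pow_add]; ring
  have h10 : 3 * m' + 10 ≤ 2 ^ (p + 2) := by
    have h11 : 3 * m' + 3 ≤ 3 * (K * e₀ * (q + 1)) := by omega
    have h12 : 3 * (K * e₀ * (q + 1)) + 3 * (K * e₀) = 3 * (K * e₀) * (p + 2 + 3) := by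
      rw [hp]; ring
    have h13 : 2 ≤ K * e₀ := by nlinarith
    omega
  calc (3 * s₁ + 3 * m' + 10) ^ e₀ ≤ (2 ^ q) ^ e₀ := Nat.pow_le_pow_left (by omega) _
    _ = 2 ^ (q * e₀) := by rw [pow_mul]
    _ ≤ 2 ^ m := Nat.pow_le_pow_right (by norm_num) h5

theorem hard_of {U : Set ℕ} (hU : InE U) (hN : NoShortProofs U) :
    ∃ A : Set ℕ, InE A ∧ HardForAdvice A := by
  classical
  obtain ⟨V, F, rec, L, C, hFam, hacc, hsnd⟩ := fam_of hU
  refine ⟨DigitSet rec L, digitSet_inE hFam, fun F₀ hF₀ => ?_⟩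
  obtain ⟨B, hB, hB1, hB2⟩ : ∃ B : T → T, PolyTime B ∧
      (∀ v, Bad F₀ V.enc C v → B v = T.leaf) ∧ ∀ v, B v = T.leaf → Bad F₀ V.enc C v := by
    refine ⟨_, PolyTime.ifP (bad_polyDec hF₀ V.enc C) (PolyTime.const T.leaf)
      (PolyTime.const (T.node T.leaf T.leaf)), fun v hv => if_pos hv, fun v hv => ?_⟩
    by_contra h
    beta_reduce at hv
    rw [if_neg h] at hv
    simp at hv
  have hsound : SoundFor B U := by
    intro x s y hy hall
    obtain ⟨l, hl⟩ : ∃ l, l = y.right.left := ⟨_, rfl⟩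
    have hnb : ∀ z : T, z.size ≤ s → ¬ Bad F₀ V.enc C (vin x s y z) :=
      fun z hz h => hall z hz (hB1 _ h)
    have el : ∀ z, pl' (vin x s y z) = l := fun z => by rw [hl]; rfl
    have eS : ∀ z, pS (vin x s y z) = s := fun z => T.len_unary s
    have eX : ∀ z, pX (vin x s y z) = x := fun z => bn_bl x
    have ez : ∀ z, pz (vin x s y z) = bn z := fun z => rfl
    have h0 := hnb T.leaf (by rw [T.size]; have := T.size_pos y; omega)
    have h1 : 2 * l.size ≤ s := by
      by_contra hcon
      refine h0 (Or.inl ?_)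
      rw [eS, el]
      omega
    have h2 : bn l ≠ 0 := by
      intro hcon
      refine h0 (Or.inr (Or.inl ?_))
      rw [el]
      exact hcon
    -- the records do not depend on `z`
    have eG : ∀ z k, GR F₀ C (T.node (vin x s y z) (bl k)) =
        GR F₀ C (T.node (vin x s y T.leaf) (bl k)) := fun z k => by
      simp only [GR, T.left_node, tab]
      rfl
    obtain ⟨v, y', t, h3, h4⟩ := acc_sound (W := chk V (bl x)) h2
      (R := fun k => GR F₀ C (T.node (vin x s y T.leaf) (bl k))) fun i hi => by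
        have h3 := bl_bn_size l i hi.le
        have h4 := hnb (bl i) (by omega)
        by_contra hcon
        refine h4 (Or.inr (Or.inr ⟨?_, fun h5 => hcon ?_⟩))
        · rw [ez, el, bn_bl]
          exact hi
        · rw [ez, el, bn_bl, eX] at h5
          rw [chk_enc]
          simp only [eG] at h5
          exact h5
    exact hsnd _ _ _ _ h3 h4
  obtain ⟨e₀, m₁, hno⟩ := hN B hB hsound
  obtain ⟨hF, hFL, hsz⟩ := hFam
  obtain ⟨k, hk⟩ := hF.size_bound
  have hLk : ∀ n, L n ≤ (2 * n + 3) ^ k := by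
    intro n
    have e2 := hk (T.unary n)
    rw [(hFL n).2] at e2
    have e1 := T.len_lt_size (encL ((List.range (L n)).map fun i => (rec n i).enc))
    rw [encL_len, List.length_map, List.length_range] at e1
    rw [T.size_unary, show 2 * n + 1 + 2 = 2 * n + 3 by rfl] at e2
    omega
  -- the constant
  obtain ⟨K, hK⟩ : ∃ K, K = 8 * (4 * k + C + 4) + 40 := ⟨_, rfl⟩
  obtain ⟨M₀, hM₀⟩ := arith K (e₀ + 1) m₁ (by omega) (by omega)
  refine ⟨2 * K * (e₀ + 1), M₀, fun m' hm' s₁ D hs₁ hD => ?_⟩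
  obtain ⟨h1, h2, h3⟩ := hM₀ m' hm'
  obtain ⟨m, hm⟩ : ∃ m, m = m' / K := ⟨_, rfl⟩
  rw [← hm] at h1 h2 h3
  have hKm : K * m ≤ m' := by
    rw [hm]
    exact Nat.mul_div_le m' K
  obtain ⟨x, hxU, hxs, hx⟩ := hno m h1
  by_contra hcon
  push Not at hcon
  -- the sizes
  have hLs : (L x).size ≤ k * (m + 3) + 1 := by
    have := MB.size_of_le (hLk x)
    rwa [hxs] at this
  have hroom : ∀ i d : ℕ, i < L x → d < C * (m + 1) →
      (T.node (bl x) (T.node (bl i) (bl d))).size + (bl (L x)).size + 5 ≤ m' := by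
    intro i d hi hd
    have e1 := bl_size x
    have e2 := bl_size i
    have e3 := bl_size d
    have e4 := bl_size (L x)
    have e5 : i.size ≤ (L x).size := Nat.size_le_size hi.le
    have e6 : d.size ≤ C * (m + 1) := by
      have : d.size ≤ d := Nat.size_le.2 Nat.lt_two_pow_self
      omega
    simp only [T.size]
    rw [hxs] at e1
    have e7 : k * (m + 3) ≤ 4 * (k * m) := by nlinarith
    have e8 : C * (m + 1) ≤ 2 * (C * m) := by nlinarith
    have e9 : K * m = 32 * (k * m) + 8 * (C * m) + 72 * m := by rw [hK]; ring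
    omega
  have hL0 : L x ≠ 0 := (hFL x).1
  have hLm : (bl (L x)).size ≤ m' := by
    rcases Nat.eq_zero_or_pos C with hC | hC
    · -- there is a record
      have := hsz x 0 (by omega)
      rw [hC] at this
      have h4 := T.size_pos ((rec x 0).enc)
      omega
    · have := hroom 0 0 (by omega) (Nat.mul_pos hC (by omega))
      omega
  obtain ⟨y, hy⟩ : ∃ y, y = T.node (T.node D (T.unary s₁)) (T.node (bl (L x)) (T.unary m')) :=
    ⟨_, rfl⟩
  have hys : y.size ≤ 3 * s₁ + 3 * m' + 10 := by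
    rw [hy]
    simp only [T.size, T.size_unary]
    omega
  obtain ⟨z, hz, hzB⟩ := hx (3 * s₁ + 3 * m' + 10) y ((Nat.pow_le_pow_right (by omega)
    (by omega)).trans (h3 s₁ hs₁)) hys
  obtain ⟨v, hv⟩ : ∃ v, v = vin x (3 * s₁ + 3 * m' + 10) y z := ⟨_, rfl⟩
  rw [← hv] at hzB
  have el : pl' v = bl (L x) := by rw [hv, hy]; rfl
  have eS : pS v = 3 * s₁ + 3 * m' + 10 := by rw [hv]; exact T.len_unary _
  have eX : pX v = x := by rw [hv]; exact bn_bl x
  have eD : pD v = D := by rw [hv, hy]; rfl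
  have es : ps v = s₁ := by rw [hv, hy]; exact T.len_unary _
  have em : pm v = m' := by rw [hv, hy]; exact T.len_unary _
  -- the records
  have hR : ∀ j < L x, GR F₀ C (T.node v (bl j)) = (rec x j).enc := by
    intro j hj
    have hsz' := hsz x j hj
    rw [GR, T.left_node, eX]
    refine DEC_thm.2.2.2.2 _ _ (by rw [tab_len]; exact hsz') fun d hd => ?_
    rw [tab_len, hxs] at hd
    rw [nthT_tab (by rw [hxs]; exact hd)]
    simp only [dig, T.left_node, T.right_node, T.len_unary, bn_bl]
    rw [eD, eX, em, es]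
    have h4 := hroom j d hj hd
    have h5 := hcon (cN (T.node (bl x) (T.node (bl j) (bl d))) m') (cN_size (by omega))
    rw [← h5, mem_digitSet (by omega)]
    have h6 : min j (L x - 1) = j := by omega
    rw [h6]
  obtain ⟨-, hok, hfin⟩ := hacc x hxU
  rcases hB2 _ hzB with h4 | h4 | ⟨h4, h5⟩
  · rw [eS, el] at h4
    omega
  · rw [el, bn_bl] at h4
    exact hL0 h4
  · rw [el, bn_bl] at h4 h5
    apply h5
    have hR' : ∀ j ≤ pz v, (fun k => GR F₀ C (T.node v (bl k))) j = (rec x j).enc :=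
      fun j hj => hR j (by omega)
    refine ⟨check_complete hR' fun j hj => hok j (by omega), ?_⟩
    by_cases h6 : pz v + 1 = L x
    · right
      obtain ⟨x', y', s', t', a, b, h7, h8⟩ := hfin
      have h9 : L x - 1 = pz v := by omega
      rw [h9] at h7
      rw [eX, ← chk_enc]
      exact final_complete hR' (hok _ h4) h7 h8
    · exact Or.inl h6

end Pool.Agent.Q2E
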