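import Pool.Agent.Q2E.Hard

/-!
# One set with both properties
-/

set_option autoImplicit false

namespace Pool.Agent.Q2E

open Pool.Agent.H19 Pool.Agent.H19.T Pool.Agent.PO Pool.Agent.S2L Pool.Agent.RU

theorem size_two (x b : ℕ) (hb : b < 2) (h : 2 * x + b ≠ 0) : (2 * x + b).size = x.size + 1 := by
  refine le_antisymm ?_ ?_
  · rw [Nat.size_le, pow_succ]
    have := Nat.lt_size_self x
    omega
  · have h1 : x.size < (2 * x + b).size := by
      rw [Nat.lt_size]
      rcases Nat.eq_zero_or_pos x with h2 | h2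
      · subst h2
        rw [Nat.size_zero, pow_zero]
        omega
      · obtain ⟨j, hj⟩ : ∃ j, x.size = j + 1 := by
          have := Nat.size_pos.2 h2
          exact ⟨x.size - 1, by omega⟩
        have h3 : 2 ^ j ≤ x := by
          rw [← Nat.lt_size, hj]
          omega
        rw [hj, pow_succ]
        omega
    omega

theorem pow_half {s e m : ℕ} (hm : 2 ≤ m) (h : s ^ (2 * e) ≤ 2 ^ m) : s ^ e ≤ 2 ^ (m - 1) := by
  by_contra hcon
  push Not at hcon
  have h1 : 2 ^ m < s ^ (2 * e) := by
    calc 2 ^ m ≤ 2 ^ (2 * (m - 1)) := Nat.pow_le_pow_right (by norm_num) (by omega)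
      _ = (2 ^ (m - 1)) ^ 2 := by rw [mul_comm, pow_mul]
      _ < (s ^ e) ^ 2 := Nat.pow_lt_pow_left hcon (by norm_num)
      _ = s ^ (2 * e) := by rw [← pow_mul, mul_comm]
  omega

/-- A set in E without short proofs, and hard for programs with advice. -/
theorem join {U A : Set ℕ} (hU : InE U) (hUN : NoShortProofs U) (hA : InE A)
    (hAH : HardForAdvice A) : ∃ W : Set ℕ, InE W ∧ NoShortProofs W ∧ HardForAdvice W := by
  classical
  refine ⟨{x | (x = 2 * (x / 2) ∧ x / 2 ∈ U) ∨ (x ≠ 2 * (x / 2) ∧ x / 2 ∈ A)}, ?_, ?_, ?_⟩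
  · obtain ⟨f, hf, hfU⟩ := hU
    obtain ⟨g, hg, hgA⟩ := hA
    have i := PolyTime.id
    have hx : PolyNat (fun w : T => w.len) := PolyNat.len i
    have hh : PolyNat (fun w : T => w.len / 2) := PolyNat.div2 hx
    have h1 : PolyDec (fun w : T => w.len = 2 * (w.len / 2)) :=
      PolyDec.eqN hx.toN ((PolyNat.const 2).mul hh).toN
    obtain ⟨F, hF, hF'⟩ := (h1.and (PolyDec.ne_leaf (hf.comp hh.unary))).or
      (h1.not.and (PolyDec.ne_leaf (hg.comp hh.unary)))
    refine ⟨F, hF, fun x => ?_⟩
    rw [← hF']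
    beta_reduce
    rw [T.len_unary, ← hfU, ← hgA]
    rfl
  · intro B hB hsound
    have i := PolyTime.id
    have hx : PolyN (fun v : T => 2 * bn v.left) := (PolyN.const 2).mul (polyN_bn i.left)
    obtain ⟨e, m₀, h⟩ := hUN (fun v => B (T.node (bl (2 * bn v.left)) v.right))
      (hB.comp (hx.node i.right)) (by
        intro x s y hy hall
        have h1 := hsound (2 * x) s y hy fun z hz => by
          have := hall z hz
          simp only [vin, T.left_node, T.right_node, bn_bl] at this
          exact this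
        rcases h1 with ⟨_, h2⟩ | ⟨h2, _⟩
        · have h3 : 2 * x / 2 = x := by omega
          rwa [h3] at h2
        · exact absurd (by omega) h2)
    refine ⟨2 * e, m₀ + 2, fun m hm => ?_⟩
    obtain ⟨x, hxU, hxs, hx⟩ := h (m - 1) (by omega)
    have hx0 : x ≠ 0 := by
      rintro rfl
      rw [Nat.size_zero] at hxs
      omega
    refine ⟨2 * x, Or.inl ⟨by omega, ?_⟩, ?_, fun s y hs hy => ?_⟩
    · have h3 : 2 * x / 2 = x := by omega
      rwa [h3]
    · have := size_two x 0 (by norm_num) (by omega)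
      rw [add_zero] at this
      omega
    · obtain ⟨z, hz, hz2⟩ := hx s y (pow_half (by omega) hs) hy
      simp only [vin, T.left_node, T.right_node, bn_bl] at hz2
      exact ⟨z, hz, hz2⟩
  · intro F hF
    have i := PolyTime.id
    have hx : PolyN (fun v : T => 2 * bn v.right.left + 1) :=
      ((PolyN.const 2).mul (polyN_bn i.right.left)).add (PolyN.const 1)
    obtain ⟨e, m₀, h⟩ := hAH (fun v => F (T.node v.left (T.node (bl (2 * bn v.right.left + 1))
      v.right.right))) (hF.comp (i.left.node (hx.node i.right.right)))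
    refine ⟨2 * e, m₀ + 2, fun m hm s D hs hD => ?_⟩
    obtain ⟨x, hxs, hx⟩ := h (m - 1) (by omega) s D (pow_half (by omega) hs) hD
    simp only [T.left_node, T.right_node, bn_bl] at hx
    refine ⟨2 * x + 1, ?_, ?_⟩
    · have := size_two x 1 (by norm_num) (by omega)
      omega
    · have h1 : 2 * x + 1 ∈ {x | (x = 2 * (x / 2) ∧ x / 2 ∈ U) ∨ (x ≠ 2 * (x / 2) ∧ x / 2 ∈ A)} ↔
          x ∈ A := by
        have h2 : (2 * x + 1) / 2 = x := by omega
        show (_ ∧ _ ∨ _ ∧ _) ↔ _
        rw [h2]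
        constructor
        · rintro (⟨h3, _⟩ | ⟨_, h3⟩)
          · omega
          · exact h3
        · exact fun h3 => Or.inr ⟨by omega, h3⟩
      rw [h1]
      exact hx

end Pool.Agent.Q2E
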