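import Pool.Agent.PO.Fwd
import Pool.Agent.PO.Pi2Fwd
import Pool.Agent.PO.SimF
import Pool.Agent.PO.Param
import Pool.Agent.PO.Gn
import Pool.Agent.PO.Def
import Pool.Agent.PO.Univ
import Pool.Agent.PO.CoNP
import Pool.Agent.PO.Tfnp
import Pool.Agent.PO.Pi2
import Pool.Agent.PO.XPA
import Pool.Agent.PO.XPB
import Pool.Agent.PO.Easy
import Pool.Agent.Q2E.Sigma
import Pool.Agent.Q2E.Circ
import Pool.Agent.Q2E.Join

/-!
# Q1, or E is hard
-/

set_option autoImplicit false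

namespace Pool.Agent.Q2E

open Pool.Agent.H19 Pool.Agent.H19.T Pool.Agent.PO Pool.Agent.S2L Pool.Agent.RU

theorem xp_of_not (μ : Fm) (P : Code → ℕ → Fm) (hμ : IsUniversal μ) (hP : IsFormalisation μ P)
    (h : ¬ ReflectionConjecture μ P) : TotalityInXP := by
  have hPi := pi2_main_of (PI2_thm SIMF_thm PARAM_thm (UNIV_thm (DEF_thm GN_thm))) μ P hμ hP
  refine opt_to_xp SIMF_thm fun A h1 h2 => ?_
  by_contra h3
  exact h ((hPi.out 0 1 rfl rfl).2 ⟨A, h1, h2, h3⟩)

/-- The assertion of Q1 holds, or some set in E is hard for circuits of size `2 ^ (ε m)`, at every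
large length, and for `Σ₂TIME(2 ^ o(m))`, and has no short coNP-checkable proofs. -/
theorem mainE (μ : Fm) (hμ : IsUniversal μ) (P : Code → ℕ → Fm) (hP : IsFormalisation μ P) :
    ReflectionConjecture μ P ∨ ∃ A : Set ℕ, InE A ∧ HardForCircuits A ∧ HardForAdvice A ∧
      NoShortProofs A ∧ ∀ t : ℕ → ℕ, SubexpBound t → ¬ InSigma2Time t A := by
  by_cases h : ReflectionConjecture μ P
  · exact Or.inl h
  · obtain ⟨U, hU, hUN⟩ := core SIMF_thm (xp_of_not μ P hμ hP h)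
    obtain ⟨B, hB, hBH⟩ := hard_of hU hUN
    obtain ⟨A, hA, hAN, hAH⟩ := join hU hUN hB hBH
    exact Or.inr ⟨A, hA, hAH.circuits, hAH, hAN, fun t ht => not_sigma2 hAN t ht⟩

end Pool.Agent.Q2E
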