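import Pool.Agent.S2L.Dec
import Pool.Agent.PO.XPDefs
import Pool.Agent.PO.SimF

/-!
# Codes of trees by numbers of a given length

`cN X m` is a number of length `m` which codes the tree `X` (if `m ≥ X.size + 3`), `dN` decodes.
-/

set_option autoImplicit false

namespace Pool.Agent.Q2E

open Pool.Agent.H19 Pool.Agent.H19.T Pool.Agent.PO Pool.Agent.S2L Pool.Agent.RU

/-- One step of the decoding. -/
def dst (h a : T) : T := decStep (T.node h T.leaf) a

/-- The tree given by a list of digits. -/
def dec2 (e : T) : T := tfold (fun h _ => h) (tfold dst e T.leaf) T.leaf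

/-- The tree coded by a number. -/
def dN (x : ℕ) : T := dec2 (bl x)

/-- The code of length `m` of the tree `X`. -/
def cN (X : T) (m : ℕ) : ℕ := bn (wordT X) + 2 ^ (m - 1)

theorem dst_polyTime : PolyTime₂ dst := by
  have i := PolyTime.id
  exact Dec.decStep_polyTime.comp (i.left.node PolyTime.leaf) i.right

theorem dst_size (h a : T) : (dst h a).size ≤ a.size + 4 := Dec.decStep_size _ _

theorem fold_size (l a : T) : (tfold dst l a).size ≤ 4 * l.size + a.size := by
  induction l generalizing a with
  | leaf => simp [tfold]
  | node h t _ ih =>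
    have h1 := ih (dst h a)
    have h2 := dst_size h a
    have h3 := T.size_pos h
    simp only [tfold, T.size]
    omega

theorem dec2_polyTime : PolyTime dec2 := by
  have i := PolyTime.id
  have h1 : PolyTime₂ (tfold dst) :=
    PolyTime₂.tfold dst_polyTime (G := fun n => 4 * n) ((PolyB.const 4).mul PolyB.id)
      (fun a b h => by dsimp only; omega) (fun l a => by have := fold_size l a; omega)
  have h2 : PolyTime₂ (tfold (fun h _ => h)) :=
    PolyTime₂.tfold (g := fun h _ => h) PolyTime.left' (G := fun n => n) PolyB.id
      (fun a b h => h) Dec.last_size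
  exact h2.comp (h1.comp i PolyTime.leaf) PolyTime.leaf

theorem dN_polyTime {f : T → ℕ} (hf : PolyN f) : PolyTime (fun z => dN (f z)) :=
  dec2_polyTime.comp hf

theorem cN_polyN {X : T → T} {m : T → ℕ} (hX : PolyTime X) (hm : PolyNat m)
    : PolyN (fun z => cN (X z) (m z)) := by
  have h2 : PolyN (fun z => bn (wordT (X z))) := canon_polyTime.comp (Dec.wordT_polyTime.comp hX)
  have h3 : PolyNat (fun z => m z - 1) := by
    refine (PolyNat.len (PolyTime.right hm)).congr fun z => ?_
    beta_reduce
    rw [T.len_right, T.len_unary]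
  exact h2.add (PolyN.pow2 h3)

/-! ### Digits -/

/-- The number with given lowest digits. -/
def num (l : List Bool) (r : ℕ) : ℕ := l.foldr (fun b n => (if b then 1 else 0) + 2 * n) r

theorem num_eq (l : List Bool) (r : ℕ) : num l r = num l 0 + 2 ^ l.length * r := by
  induction l with
  | nil => simp [num]
  | cons b l ih =>
    simp only [num, List.foldr_cons, List.length_cons] at ih ⊢
    rw [ih, pow_succ]
    ring

theorem num_ne {l : List Bool} {r : ℕ} (hr : r ≠ 0) : num l r ≠ 0 := by
  induction l with
  | nil => exact hr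
  | cons b l ih =>
    simp only [num, List.foldr_cons] at ih ⊢
    omega

theorem bl_num (l : List Bool) (r : ℕ) (hr : r ≠ 0) :
    (bl (num l r)).toL = l.map Dec.lt ++ (bl r).toL := by
  induction l with
  | nil => rfl
  | cons b l ih =>
    have h1 : num (b :: l) r = (if b then 1 else 0) + 2 * num l r := rfl
    have h2 : num l r ≠ 0 := num_ne hr
    have h3 : num (b :: l) r / 2 = num l r := by
      rw [h1]
      cases b <;> simp <;> omega
    rw [bl_pos (num_ne hr), T.toL, h3, ih]
    have h4 : bit (num (b :: l) r) = Dec.lt b := by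
      rw [h1, bit, Dec.lt]
      cases b
      · simp
      · simp [Nat.add_mod]
    rw [h4]
    rfl

theorem bl_pow (j : ℕ) : (bl (2 ^ j)).toL =
    List.replicate j T.leaf ++ [T.node T.leaf T.leaf] := by
  induction j with
  | zero =>
    rw [pow_zero, bl_pos (by norm_num)]
    simp [bit, T.toL]
  | succ j ih =>
    have h1 : (2 : ℕ) ^ (j + 1) ≠ 0 := by positivity
    have h2 : (2 : ℕ) ^ (j + 1) / 2 = 2 ^ j := by rw [pow_succ]; simp
    rw [bl_pos h1, T.toL, h2, ih]
    have h3 : bit (2 ^ (j + 1)) = T.leaf := by
      rw [bit, if_pos]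
      rw [pow_succ]
      simp
    rw [h3]
    rfl

theorem bn_wordT (X : T) : bn (wordT X) = num (word X) 0 := by
  have key : ∀ (l : List Bool) (e : T), e.toL = l.map Dec.lt → bn e = num l 0 := by
    intro l
    induction l with
    | nil =>
      intro e he
      cases e with
      | leaf => rfl
      | node a b => simp [T.toL] at he
    | cons b l ih =>
      intro e he
      cases e with
      | leaf => simp [T.toL] at he
      | node a t =>
        simp only [T.toL, List.map_cons, List.cons.injEq] at he
        rw [bn, ih t he.2, he.1]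
        have : num (b :: l) 0 = (if b then 1 else 0) + 2 * num l 0 := rfl
        rw [this, Dec.lt]
        cases b <;> simp
  exact key _ _ (Dec.toL_wordT X)

theorem cN_eq {X : T} {m : ℕ} (hm : X.size + 1 ≤ m) :
    cN X m = num (word X) (2 ^ (m - 1 - X.size)) := by
  rw [cN, bn_wordT, num_eq _ (2 ^ _), Dec.word_length, ← pow_add]
  congr 2
  omega

theorem cN_size {X : T} {m : ℕ} (hm : X.size + 1 ≤ m) : (cN X m).size = m := by
  have h1 : bn (wordT X) < 2 ^ (m - 1) := by
    refine (bn_lt _).trans_le (Nat.pow_le_pow_right (by norm_num) ?_)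
    have h2 : (wordT X).len = X.size := by
      have h3 := congrArg List.length (Dec.toL_wordT X)
      rw [List.length_map, Dec.word_length] at h3
      rw [← h3, ← encL_len, encL_toL]
    omega
  refine le_antisymm ?_ ?_
  · rw [Nat.size_le, cN]
    have h3 : 2 ^ m = 2 * 2 ^ (m - 1) := by
      rw [← pow_succ']
      congr 1
      omega
    omega
  · have h2 : m - 1 < (cN X m).size := by
      rw [Nat.lt_size, cN]
      omega
    omega

theorem dst_lt (b : Bool) (a : T) : dst (Dec.lt b) a = Dec.st b a := by
  rw [dst, Dec.decStep_eq]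
  cases b <;> simp [Dec.lt]

theorem dst_foldl (l : List Bool) (a : T) :
    (l.map Dec.lt).foldl (fun a h => dst h a) a = l.foldl (fun a b => Dec.st b a) a := by
  induction l generalizing a with
  | nil => rfl
  | cons b l ih => simp only [List.map_cons, List.foldl_cons, dst_lt, ih]

theorem dN_cN {X : T} {m : ℕ} (hm : X.size + 3 ≤ m) : dN (cN X m) = X := by
  have h1 : (bl (cN X m)).toL = (word X ++ List.replicate (m - 1 - X.size) false ++
      [true]).map Dec.lt := by
    rw [cN_eq (by omega), bl_num _ _ (by positivity), bl_pow]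
    simp [Dec.lt]
  have h2 : dN (cN X m) = Dec.bot (tfold dst (bl (cN X m)) T.leaf) := rfl
  obtain ⟨j, hj⟩ : ∃ j, m - 1 - X.size = j + 2 := ⟨m - 1 - X.size - 2, by omega⟩
  rw [h2, tfold_eq, h1, dst_foldl, hj, List.foldl_append, List.foldl_append, Dec.fold_word,
    List.replicate_succ', List.replicate_succ', List.foldl_append, List.foldl_append]
  simp only [List.foldl_cons, List.foldl_nil]
  have h3 : Dec.bot ((List.replicate j false).foldl (fun a b => Dec.st b a) (T.node X T.leaf)) =
      X := by
    rw [Dec.bot_zeros]
    rfl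
  -- the stack is not empty
  have h4 : ∀ (i : ℕ) (a b : T), ∃ c d, (List.replicate i false).foldl
      (fun a b => Dec.st b a) (T.node a b) = T.node c d := by
    intro i
    induction i with
    | zero => exact fun a b => ⟨a, b, rfl⟩
    | succ i ih =>
      intro a b
      rw [List.replicate_succ, List.foldl_cons]
      exact ih _ _
  obtain ⟨c, d, hcd⟩ := h4 j X T.leaf
  rw [hcd] at h3 ⊢
  show Dec.bot (T.node (T.node T.leaf T.leaf) (T.node c d)) = X
  exact h3

end Pool.Agent.Q2E
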