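import Pool.Agent.Q2E.Num
import Pool.Agent.RU.Ball

/-!
# Lists of values are computable in polynomial time
-/

set_option autoImplicit false

namespace Pool.Agent.Q2E

open Pool.Agent.H19 Pool.Agent.H19.T Pool.Agent.PO Pool.Agent.S2L Pool.Agent.RU

/-- The list of the values of `f` on `node x (unary i)`, for `i < n`. -/
def tab (f : T → T) (x : T) (n : ℕ) : T :=
  encL ((List.range n).map fun i => f (T.node x (T.unary i)))

/-- One step; the state is `node x (node list (unary i))`. -/
def tabStep (f : T → T) (s : T) : T :=
  T.node s.left (T.node (T.node (f (T.node s.left s.right.right.right)) s.right.left)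
    s.right.right.right)

theorem tabStep_iterate (f : T → T) (x : T) (n j : ℕ) (hj : j ≤ n) :
    (tabStep f)^[j] (T.node x (T.node T.leaf (T.unary n))) =
      T.node x (T.node (encL ((List.range' (n - j) j).map fun i => f (T.node x (T.unary i))))
        (T.unary (n - j))) := by
  induction j with
  | zero => simp
  | succ j ih =>
    rw [Function.iterate_succ_apply', ih (by omega), tabStep]
    simp only [T.left_node, T.right_node]
    obtain ⟨i, hi⟩ : ∃ i, n - j = i + 1 := ⟨n - j - 1, by omega⟩
    have h1 : n - (j + 1) = i := by omega
    have h2 : (T.unary (i + 1)).right = T.unary i := rfl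
    rw [hi, h1, h2]
    rfl

theorem encL_size {l : List T} {M : ℕ} (h : ∀ a ∈ l, a.size ≤ M) :
    (encL l).size ≤ l.length * (M + 1) + 1 := by
  induction l with
  | nil => simp [T.size]
  | cons a l ih =>
    have h1 := ih fun b hb => h b (List.mem_cons_of_mem _ hb)
    have h2 := h a List.mem_cons_self
    simp only [encL_cons, T.size, List.length_cons]
    have : (l.length + 1) * (M + 1) = l.length * (M + 1) + M + 1 := by ring
    omega

theorem tab_polyTime {f : T → T} (hf : PolyTime f) {n : T → ℕ} (hn : PolyNat n) :
    PolyTime (fun x => tab f x (n x)) := by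
  have i := PolyTime.id
  have hstep : PolyTime (tabStep f) :=
    i.left.node (((hf.comp (i.left.node i.right.right.right)).node i.right.left).node
      i.right.right.right)
  have h0 : PolyTime (fun x => T.node x (T.node T.leaf (T.unary (n x)))) :=
    i.node ((PolyTime.const _).node hn.unary)
  have hit := PolyTime.iterate hstep hn.unary h0 (by
    obtain ⟨a, ha⟩ := PolyTime.size_bound hn
    obtain ⟨b, hb⟩ := PolyTime.size_bound hf
    obtain ⟨k, hk⟩ : PolyB (fun m => (m + 2) ^ a * ((m + (m + 2) ^ a + 3) ^ b + 1) + 1 + m +
        (m + 2) ^ a + 5) :=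
      ((((PolyB.mul ⟨a, fun _ => le_rfl⟩ ((((PolyB.id.add ⟨a, fun _ => le_rfl⟩).add
        (PolyB.const 3)).pow b).add (PolyB.const 1))).add (PolyB.const 1)).add PolyB.id).add
        ⟨a, fun _ => le_rfl⟩).add (PolyB.const 5)
    refine ⟨k, fun x i hi => le_trans ?_ (hk x.size)⟩
    rw [T.len_unary] at hi
    rw [tabStep_iterate _ _ _ _ hi]
    have h1 := ha x
    rw [T.size_unary] at h1
    have h2 : (encL ((List.range' (n x - i) i).map fun i => f (T.node x (T.unary i)))).size ≤
        (x.size + 2) ^ a * ((x.size + (x.size + 2) ^ a + 3) ^ b + 1) + 1 := by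
      refine (encL_size (M := (x.size + (x.size + 2) ^ a + 3) ^ b) ?_).trans ?_
      · intro c hc
        obtain ⟨j, hj, rfl⟩ := List.mem_map.1 hc
        refine (hb _).trans (Nat.pow_le_pow_left ?_ _)
        rw [List.mem_range'] at hj
        obtain ⟨q, hq, hq2⟩ := hj
        simp only [T.size, T.size_unary]
        omega
      · rw [List.length_map, List.length_range']
        refine Nat.add_le_add_right (Nat.mul_le_mul_right _ ?_) _
        omega
    simp only [T.size, T.size_unary] at h2 ⊢
    omega)
  refine hit.right.left.congr fun x => ?_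
  rw [T.len_unary, tabStep_iterate _ _ _ _ le_rfl, T.right_node, T.left_node, tab,
    Nat.sub_self, List.range_eq_range']

theorem nthT_encL {l : List T} {j : ℕ} (hj : j < l.length) : nthT (encL l) j = l[j] := by
  induction l generalizing j with
  | nil => simp at hj
  | cons a l ih =>
    cases j with
    | zero => simp [nthT]
    | succ j =>
      have h1 : nthT (encL (a :: l)) (j + 1) = nthT (encL l) j := by
        simp [nthT, Function.iterate_succ_apply]
      rw [h1, ih (by simpa using hj)]
      simp

theorem tab_len (f : T → T) (x : T) (n : ℕ) : (tab f x n).len = n := by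
  rw [tab, encL_len, List.length_map, List.length_range]

theorem nthT_tab {f : T → T} {x : T} {n k : ℕ} (hk : k < n) :
    nthT (tab f x n) k = f (T.node x (T.unary k)) := by
  rw [tab, nthT_encL (by rw [List.length_map, List.length_range]; exact hk), List.getElem_map,
    List.getElem_range]

end Pool.Agent.Q2E
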